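import Pool.Agent.ArtSph.Step

/-!
The steps respect the braid relations.
-/

set_option autoImplicit false

namespace Pool.Agent.ArtSph

open CoxeterSystem Pool.Agent.FBuild

theorem pow_shift {G : Type} [Monoid G] (a b : G) (n : ℕ) : (a * b) ^ n * a = a * (b * a) ^ n := by
  induction n with
  | zero => simp
  | succ n ih => rw [pow_succ', pow_succ', mul_assoc (a * b), ih]; simp only [mul_assoc]

open Classical in
theorem count_pow {G : Type} [Group G] (ρ g : G) (m : ℕ) (hm : m ≠ 0) (ho : orderOf ρ = m)
    (hg : g ∈ Subgroup.zpowers ρ) : ((Finset.range m).filter (fun l => ρ ^ l = g)).card = 1 := by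
  rw [Finset.card_eq_one]
  obtain ⟨e, rfl⟩ := Subgroup.mem_zpowers_iff.1 hg
  have hm' : (m : ℤ) ≠ 0 := by exact_mod_cast hm
  have h0 := Int.emod_nonneg e hm'
  have h1 := Int.emod_lt_of_pos e (by omega : (0 : ℤ) < m)
  refine ⟨(e % m).toNat, ?_⟩
  ext l
  simp only [Finset.mem_filter, Finset.mem_range, Finset.mem_singleton]
  have key : ρ ^ ((e % m).toNat) = ρ ^ e := by
    rw [← zpow_natCast, Int.toNat_of_nonneg h0, ← ho, zpow_mod_orderOf]
  constructor
  · rintro ⟨hl, h⟩
    rw [← key] at h
    exact pow_injOn_Iio_orderOf (by rw [ho]; exact hl) (by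
      rw [ho]
      show (e % m).toNat < m
      omega) h
  · rintro rfl
    exact ⟨by omega, key⟩

section one

variable {B W C : Type} [Group W] {M : CoxeterMatrix B} {cs : CoxeterSystem M W} {t : C → B}
  {N : CoxeterMatrix C}

open Classical in
/-- The number of crossings of the wall of `i` along an alternating word. -/
noncomputable def cross (cs : CoxeterSystem M W) (i : B) (w : W) (x y : B) : ℕ → ℕ
  | 0 => 0
  | n + 1 => (if w * cs.simple x * w⁻¹ = cs.simple i then 1 else 0) +
      cross cs i (w * cs.simple x) y x n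

open Classical in
theorem cross_eq (i : B) (w : W) (x y : B) (n : ℕ) : cross cs i w x y n =
    ((Finset.range n).filter (fun l =>
      (cs.simple x * cs.simple y) ^ l * cs.simple x = w⁻¹ * cs.simple i * w)).card := by
  induction n generalizing w x y with
  | zero => rfl
  | succ n ih =>
    rw [cross, ih, Finset.card_filter, Finset.card_filter, Finset.sum_range_succ', add_comm]
    congr 1
    · apply Finset.sum_congr rfl
      intro l _
      have e1 : (cs.simple x * cs.simple y) ^ (l + 1) * cs.simple x =
          cs.simple x * ((cs.simple y * cs.simple x) ^ l * cs.simple y) * cs.simple x := by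
        rw [pow_shift, pow_succ]
        simp only [mul_assoc]
      have e2 : (w * cs.simple x)⁻¹ * cs.simple i * (w * cs.simple x) =
          cs.simple x * (w⁻¹ * cs.simple i * w) * cs.simple x := by
        rw [mul_inv_rev, cs.inv_simple]
        simp only [mul_assoc]
      have h1 : ((cs.simple y * cs.simple x) ^ l * cs.simple y =
          (w * cs.simple x)⁻¹ * cs.simple i * (w * cs.simple x)) ↔
          ((cs.simple x * cs.simple y) ^ (l + 1) * cs.simple x = w⁻¹ * cs.simple i * w) := by
        rw [e1, e2]
        constructor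
        · intro h
          rw [h]
          simp only [mul_assoc, cs.simple_mul_simple_self, mul_one,
            cs.simple_mul_simple_cancel_left]
        · intro h
          rw [← h]
          simp only [mul_assoc, cs.simple_mul_simple_self, mul_one,
            cs.simple_mul_simple_cancel_left]
      simp only [h1]
    · have h2 : (w * cs.simple x * w⁻¹ = cs.simple i) ↔
          ((cs.simple x * cs.simple y) ^ 0 * cs.simple x = w⁻¹ * cs.simple i * w) := by
        rw [pow_zero, one_mul]
        constructor
        · intro h; rw [← h]; group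
        · intro h; rw [h]; group
      simp only [h2]

theorem dih_conj (i j : B) {y : W}
    (hy : y ∈ Subgroup.closure (cs.simple '' ({i, j} : Set B))) :
    ∃ e : ℤ, y⁻¹ * cs.simple i * y = (cs.simple i * cs.simple j) ^ e * cs.simple i := by
  have hρ : ∀ e : ℤ, cs.simple i * (cs.simple i * cs.simple j) ^ e * cs.simple i =
      (cs.simple i * cs.simple j) ^ (-e) := by
    intro e
    have h1 : cs.simple i * (cs.simple i * cs.simple j) * (cs.simple i)⁻¹ =
        (cs.simple i * cs.simple j)⁻¹ := by
      rw [mul_inv_rev, cs.inv_simple, cs.inv_simple, cs.simple_mul_simple_cancel_left]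
    have h2 : MulAut.conj (cs.simple i) ((cs.simple i * cs.simple j) ^ e) =
        (MulAut.conj (cs.simple i) (cs.simple i * cs.simple j)) ^ e := map_zpow _ _ _
    rw [MulAut.conj_apply, MulAut.conj_apply, h1, cs.inv_simple] at h2
    rw [h2, inv_zpow, zpow_neg]
  have hj : cs.simple j = cs.simple i * (cs.simple i * cs.simple j) := by
    rw [cs.simple_mul_simple_cancel_left]
  have gen : ∀ z : W, (z = cs.simple i ∨ z = cs.simple j) → ∀ e : ℤ,
      ∃ e' : ℤ, z⁻¹ * ((cs.simple i * cs.simple j) ^ e * cs.simple i) * z =
        (cs.simple i * cs.simple j) ^ e' * cs.simple i := by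
    rintro z (rfl | rfl) e
    · refine ⟨-e, ?_⟩
      rw [← hρ, cs.inv_simple]
      simp only [mul_assoc]
    · refine ⟨-e - 2, ?_⟩
      rw [cs.inv_simple]
      nth_rewrite 1 [hj]
      have e1 : cs.simple i * (cs.simple i * cs.simple j) *
          ((cs.simple i * cs.simple j) ^ e * cs.simple i) * cs.simple j =
          (cs.simple i * (cs.simple i * cs.simple j) ^ (1 + e) * cs.simple i) * cs.simple j := by
        rw [zpow_one_add]
        simp only [mul_assoc]
      have e2 : cs.simple j = (cs.simple i * cs.simple j)⁻¹ * cs.simple i := by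
        rw [mul_inv_rev, cs.inv_simple, cs.inv_simple, mul_assoc, cs.simple_mul_simple_self,
          mul_one]
      rw [e1, hρ]
      nth_rewrite 2 [e2]
      rw [← mul_assoc, ← zpow_neg_one, ← zpow_add]
      congr 2
      ring
  induction hy using Subgroup.closure_induction_right with
  | one => exact ⟨0, by simp⟩
  | mul_right x hx y hy ih =>
    obtain ⟨e, he⟩ := ih
    obtain ⟨k, hk, rfl⟩ := hy
    obtain ⟨e', he'⟩ := gen (cs.simple k) (by
      rcases hk with rfl | hk
      · exact Or.inl rfl
      · rw [Set.mem_singleton_iff] at hk; subst hk; exact Or.inr rfl) e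
    refine ⟨e', ?_⟩
    rw [← he', ← he]
    group
  | mul_inv_cancel x hx y hy ih =>
    obtain ⟨e, he⟩ := ih
    obtain ⟨k, hk, rfl⟩ := hy
    obtain ⟨e', he'⟩ := gen (cs.simple k) (by
      rcases hk with rfl | hk
      · exact Or.inl rfl
      · rw [Set.mem_singleton_iff] at hk; subst hk; exact Or.inr rfl) e
    refine ⟨e', ?_⟩
    rw [← he', ← he, cs.inv_simple, mul_inv_rev, cs.inv_simple]
    simp only [mul_assoc]

/-- Each wall of a rank two coset is crossed exactly once by a half turn. -/
theorem cross_half (i j : B) (hm : M i j ≠ 0) {y : W}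
    (hy : y ∈ Subgroup.closure (cs.simple '' ({i, j} : Set B))) :
    cross cs i y i j (M i j) = 1 ∧ cross cs i y j i (M i j) = 1 := by
  classical
  obtain ⟨e, he⟩ := dih_conj i j hy
  have ho := orderOf_simple_mul cs i j
  constructor
  · rw [cross_eq, he]
    have := count_pow (cs.simple i * cs.simple j) ((cs.simple i * cs.simple j) ^ e) (M i j) hm ho
      ⟨e, rfl⟩
    rw [← this]
    congr 1
    apply Finset.filter_congr
    intro l _
    exact mul_left_inj _
  · rw [cross_eq, he]
    have := count_pow (cs.simple i * cs.simple j) ((cs.simple i * cs.simple j) ^ (-e - 1)) (M i j)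
      hm ho ⟨_, rfl⟩
    rw [← this]
    congr 1
    apply Finset.filter_congr
    intro l _
    have e1 : cs.simple j * cs.simple i = (cs.simple i * cs.simple j)⁻¹ := by
      rw [mul_inv_rev, cs.inv_simple, cs.inv_simple]
    have e2 : cs.simple j = (cs.simple i * cs.simple j)⁻¹ * cs.simple i := by
      rw [mul_inv_rev, cs.inv_simple, cs.inv_simple, mul_assoc, cs.simple_mul_simple_self,
        mul_one]
    rw [e1]
    nth_rewrite 2 [e2]
    rw [← mul_assoc, mul_left_inj]
    set ρ := cs.simple i * cs.simple j with hρ
    have h3 : ∀ a b : ℤ, ρ ^ a = ρ ^ b ↔ ρ ^ (a - b) = 1 := by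
      intro a b
      rw [zpow_sub, mul_inv_eq_one]
    have h4 : ρ⁻¹ ^ l * ρ⁻¹ = ρ ^ (-(l : ℤ) - 1) := by
      rw [zpow_sub, zpow_neg, zpow_natCast, zpow_one, inv_pow]
    have h5 : ρ ^ l = ρ ^ (l : ℤ) := (zpow_natCast _ _).symm
    rw [h4, h5, h3, h3, ← inv_inj, inv_one, ← zpow_neg]
    rw [show -(-(l : ℤ) - 1 - e) = (l : ℤ) - (-e - 1) by ring]

end one

end Pool.Agent.ArtSph
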