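import Pool.Agent.ArtSph.Braid

/-!
The steps respect the braid relations, second part.
-/

set_option autoImplicit false

namespace Pool.Agent.ArtSph

open CoxeterSystem Pool.Agent.FBuild

section one

variable {B W C : Type} [Group W] {M : CoxeterMatrix B} {cs : CoxeterSystem M W} {t : C → B}
  {N : CoxeterMatrix C}

open Classical in
theorem step_single (ht : Function.Injective t) (e : C)
    (he : ∀ c, c = e) (w : W) (x : B) :
    step cs t N w x = if w * cs.simple x * w⁻¹ = cs.simple (t e) then ag N e else 1 := by
  obtain ⟨u, hu, hw⟩ := red_dec cs t w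
  have hcomm : Commute u (cs.simple (t e)) := by
    clear hw
    induction hu using Subgroup.closure_induction with
    | mem z hz => obtain ⟨c, rfl⟩ := hz; rw [he c]
    | one => exact Commute.one_left _
    | mul a b _ _ ha hb => exact ha.mul_left hb
    | inv a _ ha => exact ha.inv_left
  have hiff : w * cs.simple x * w⁻¹ = cs.simple (t e) ↔
      cs.simple (t e) * red cs t w = red cs t w * cs.simple x := by
    have h1 : w * cs.simple x * w⁻¹ = u * (red cs t w * cs.simple x * (red cs t w)⁻¹) * u⁻¹ := by
      nth_rewrite 1 2 [hw]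
      group
    rw [h1]
    constructor
    · intro h
      have h2 : red cs t w * cs.simple x * (red cs t w)⁻¹ = u⁻¹ * cs.simple (t e) * u := by
        rw [← h]; group
      rw [mul_assoc u⁻¹, ← hcomm.eq, inv_mul_cancel_left] at h2
      rw [← h2]; group
    · intro h
      rw [← h, mul_inv_cancel_right, hcomm.eq, mul_inv_cancel_right]
  split_ifs with h
  · exact step_eq ht (hiff.1 h)
  · apply step_eq_one
    intro c hc
    rw [he c] at hc
    exact h (hiff.2 hc)

theorem kc_single (ht : Function.Injective t) (e : C)
    (he : ∀ c, c = e) (w : W) (x y : B) (n : ℕ) :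
    kc cs t N w x y n = ag N e ^ cross cs (t e) w x y n := by
  classical
  induction n generalizing w x y with
  | zero => simp [kc, cross]
  | succ n ih =>
    rw [kc, cross, ih, step_single ht e he, pow_add]
    congr 1
    split_ifs <;> simp

theorem kc_empty (h : IsEmpty C) (w : W) (x y : B) (n : ℕ) : kc cs t N w x y n = 1 := by
  induction n generalizing w x y with
  | zero => rfl
  | succ n ih => rw [kc, ih, mul_one]; exact step_eq_one (fun c => h.elim c)

theorem kc_pair (ht : Function.Injective t) (hN : ∀ c c', N c c' = M (t c) (t c')) (e e' : C)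
    {w : W} (hw : w ∈ Wt cs t) (n : ℕ) :
    kc cs t N w (t e) (t e') n = altM (ag N e) (ag N e') n := by
  have hred : ∀ w ∈ Wt cs t, red cs t w = 1 := by
    intro w hw
    have h1 : IsRed cs t 1 := fun c => one_asc cs _
    have h2 := red_eq hN hw h1
    rwa [mul_one] at h2
  induction n generalizing w e e' with
  | zero => rfl
  | succ n ih =>
    rw [kc, altM, ih _ _ ((Wt cs t).mul_mem hw (simple_mem_Wt cs t e))]
    congr 1
    apply step_eq ht
    rw [hred w hw, mul_one, one_mul]

/-- The braid relation, for an embedding into `{i, j}`. -/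
theorem braid_in (ht : Function.Injective t) (hN : ∀ c c', N c c' = M (t c) (t c')) (i j : B)
    (hm : M i j ≠ 0) (hran : ∀ c, t c = i ∨ t c = j) {y : W}
    (hy : y ∈ Subgroup.closure (cs.simple '' ({i, j} : Set B))) :
    kc cs t N y i j (M i j) = kc cs t N y j i (M i j) := by
  by_cases hij : i = j
  · subst hij; rfl
  by_cases hi : ∃ e, t e = i
  · obtain ⟨e, rfl⟩ := hi
    by_cases hj : ∃ e', t e' = j
    · obtain ⟨e', rfl⟩ := hj
      have hle : Subgroup.closure (cs.simple '' ({t e, t e'} : Set B)) ≤ Wt cs t := by
        rw [Subgroup.closure_le]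
        rintro _ ⟨k, hk, rfl⟩
        rcases hk with rfl | hk
        · exact simple_mem_Wt cs t e
        · rw [Set.mem_singleton_iff] at hk
          subst hk
          exact simple_mem_Wt cs t e'
      rw [kc_pair ht hN e e' (hle hy), kc_pair ht hN e' e (hle hy), ← hN]
      exact art_braid N e e' (by rw [hN]; exact hm)
    · have he : ∀ c, c = e := by
        intro c
        rcases hran c with h | h
        · exact ht h
        · exact absurd ⟨c, h⟩ hj
      obtain ⟨h1, h2⟩ := cross_half (t e) j hm hy
      rw [kc_single ht e he, kc_single ht e he, h1, h2]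
  · by_cases hj : ∃ e', t e' = j
    · obtain ⟨e', rfl⟩ := hj
      have he : ∀ c, c = e' := by
        intro c
        rcases hran c with h | h
        · exact absurd ⟨c, h⟩ hi
        · exact ht h
      obtain ⟨h1, h2⟩ := cross_half (cs := cs) (t e') i (by rw [M.symmetric]; exact hm) (y := y)
        (by rw [Set.pair_comm]; exact hy)
      rw [kc_single ht e' he, kc_single ht e' he, M.symmetric, h1, h2]
    · have : IsEmpty C := ⟨fun c => by
        rcases hran c with h | h
        · exact hi ⟨c, h⟩
        · exact hj ⟨c, h⟩⟩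
      rw [kc_empty this, kc_empty this]

end one

section general

variable {B W C : Type} [Group W] {M : CoxeterMatrix B} {cs : CoxeterSystem M W}
  {t : C → B} {N : CoxeterMatrix C}

/-- The indices conjugated into `V` by `d`. -/
def DIdx (cs : CoxeterSystem M W) (t : C → B) (V : Set B) (d : W) : Type :=
  {c : C // ∃ v ∈ V, cs.simple (t c) * d = d * cs.simple v}

/-- The conjugated index. -/
noncomputable def dmap (cs : CoxeterSystem M W) (t : C → B) (V : Set B) (d : W)
    (e : DIdx cs t V d) : B := e.2.choose

theorem dmap_mem {V : Set B} {d : W} (e : DIdx cs t V d) : dmap cs t V d e ∈ V :=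
  e.2.choose_spec.1

theorem dmap_eq {V : Set B} {d : W} (e : DIdx cs t V d) :
    cs.simple (t e.1) * d = d * cs.simple (dmap cs t V d e) := e.2.choose_spec.2

/-- The labels on the conjugated indices. -/
def dN (N : CoxeterMatrix C) (cs : CoxeterSystem M W) (t : C → B) (V : Set B) (d : W) :
    CoxeterMatrix (DIdx cs t V d) where
  M := fun e e' => N e.1 e'.1
  isSymm := by
    ext e e'
    exact N.symmetric _ _
  diagonal := fun e => N.diagonal _
  off_diagonal := fun e e' h => N.off_diagonal _ _ (fun h' => h (Subtype.ext h'))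

theorem dout [Fintype B] {V : Set B} {d : W} (hd : IsRed cs t d) (hdV : ∀ v ∈ V, Asc cs d⁻¹ v) (c : C)
    (hc : c ∉ Set.range (Subtype.val : DIdx cs t V d → C)) (y : W)
    (hy : y ∈ Subgroup.closure (cs.simple '' V)) : Asc cs (d * y) (t c) := by
  by_contra h
  obtain ⟨v, hv, he⟩ := double_coset cs (hd c) hdV hy h
  exact hc ⟨⟨c, v, hv, he⟩, rfl⟩

theorem braid [Fintype B] (ht : Function.Injective t) (hN : ∀ c c', N c c' = M (t c) (t c')) (w : W) (i j : B)
    (hm : M i j ≠ 0) : kc cs t N w i j (M i j) = kc cs t N w j i (M i j) := by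
  obtain ⟨u, hu, d, y, hy, hw, hd, hdV⟩ := exists_double cs t ({i, j} : Set B) w
  rw [hw, kc_mul hN hu, kc_mul hN hu]
  have hsub : Function.Injective (Subtype.val : DIdx cs t ({i, j} : Set B) d → C) :=
    Subtype.val_injective
  have hY : ∀ e, cs.simple (dmap cs t ({i, j} : Set B) d e) ∈
      Subgroup.closure (cs.simple '' ({i, j} : Set B)) :=
    fun e => Subgroup.subset_closure ⟨_, dmap_mem e, rfl⟩
  have hi : cs.simple i ∈ Subgroup.closure (cs.simple '' ({i, j} : Set B)) :=
    Subgroup.subset_closure ⟨i, by simp, rfl⟩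
  have hj : cs.simple j ∈ Subgroup.closure (cs.simple '' ({i, j} : Set B)) :=
    Subgroup.subset_closure ⟨j, by simp, rfl⟩
  have hlab : ∀ e e', dN N cs t ({i, j} : Set B) d e e' =
      M (dmap cs t ({i, j} : Set B) d e) (dmap cs t ({i, j} : Set B) d e') :=
    fun e e' => label_conj (cs := cs) hN (fun e => dmap_eq e) e e'
  rw [kc_conj (N' := dN N cs t ({i, j} : Set B) d) (t' := dmap cs t ({i, j} : Set B) d)
    ht hsub hN (fun e e' => rfl) hd (fun e => dmap_eq e) _ hY (dout hd hdV) hy hi hj,
    kc_conj (N' := dN N cs t ({i, j} : Set B) d) (t' := dmap cs t ({i, j} : Set B) d)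
    ht hsub hN (fun e e' => rfl) hd (fun e => dmap_eq e) _ hY (dout hd hdV) hy hj hi]
  congr 1
  apply braid_in (tinj_conj (cs := cs) ht hsub (fun e => dmap_eq e)) hlab i j hm _ hy
  intro e
  have := dmap_mem e
  simpa using this

end general

end Pool.Agent.ArtSph
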