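import Pool.Agent.ArtSph.Braid2

/-!
The retraction cocycle of an Artin group.
-/

set_option autoImplicit false

namespace Pool.Agent.ArtSph

open CoxeterSystem Pool.Agent.FBuild

section

variable {B W C : Type} [Group W] {M : CoxeterMatrix B}

/-- The Artin group maps to the Coxeter group. -/
noncomputable def theta (cs : CoxeterSystem M W) : Art M →* W :=
  artLift cs.simple (fun i j _ => altM_rel _ _ (cs.simple_mul_simple_self i)
    (cs.simple_mul_simple_self j) _ (cs.simple_mul_simple_pow i j))

@[simp] theorem theta_ag (cs : CoxeterSystem M W) (i : B) : theta cs (ag M i) = cs.simple i :=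
  artLift_ag _ _ i

/-- Right translation on functions. -/
def tr (W P : Type) [Group W] [Group P] : W →* MulAut (W → P) where
  toFun w :=
    { toFun := fun f x => f (x * w)
      invFun := fun f x => f (x * w⁻¹)
      left_inv := fun f => by funext x; simp
      right_inv := fun f => by funext x; simp
      map_mul' := fun f g => rfl }
  map_one' := by ext f x; simp
  map_mul' := fun w w' => by ext f x; simp [mul_assoc]

theorem tr_apply {P : Type} [Group P] (w : W) (f : W → P) (x : W) : tr W P w f x = f (x * w) := rfl

variable [Fintype B] (cs : CoxeterSystem M W) (t : C → B) (N : CoxeterMatrix C)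

/-- The generators of the cocycle homomorphism. -/
noncomputable def cgen (s : B) : SemidirectProduct (W → Art N) W (tr W (Art N)) :=
  ⟨fun w => step cs t N w s, cs.simple s⟩

theorem cgen_altM (x y : B) (n : ℕ) :
    altM (cgen cs t N x) (cgen cs t N y) n =
      ⟨fun w => kc cs t N w x y n, altM (cs.simple x) (cs.simple y) n⟩ := by
  induction n generalizing x y with
  | zero => rfl
  | succ n ih =>
    rw [altM, ih]
    apply SemidirectProduct.ext
    · rw [SemidirectProduct.mul_left]
      funext w
      rfl
    · rfl

variable {t N} (ht : Function.Injective t) (hN : ∀ c c', N c c' = M (t c) (t c'))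

/-- The cocycle homomorphism. -/
noncomputable def cHom : Art M →* SemidirectProduct (W → Art N) W (tr W (Art N)) :=
  artLift (cgen cs t N) (fun i j h => by
    rw [cgen_altM, cgen_altM]
    apply SemidirectProduct.ext
    · funext w
      exact braid ht hN w i j h
    · exact altM_rel _ _ (cs.simple_mul_simple_self i)
        (cs.simple_mul_simple_self j) _ (cs.simple_mul_simple_pow i j))

/-- The cocycle. -/
noncomputable def coc (w : W) (a : Art M) : Art N := (cHom cs ht hN a).left w

theorem cHom_right (a : Art M) : (cHom cs ht hN a).right = theta cs a := by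
  induction a using art_induction with
  | h1 => simp
  | hg i => rw [cHom, artLift_ag, theta_ag]; rfl
  | hm a b ha hb => rw [map_mul, map_mul, SemidirectProduct.mul_right, ha, hb]
  | hi a ha => rw [map_inv, map_inv, SemidirectProduct.inv_right, ha]

theorem coc_ag (w : W) (s : B) : coc cs ht hN w (ag M s) = step cs t N w s := by
  rw [coc, cHom, artLift_ag]; rfl

theorem coc_mul (w : W) (a b : Art M) :
    coc cs ht hN w (a * b) = coc cs ht hN w a * coc cs ht hN (w * theta cs a) b := by
  rw [coc, map_mul, SemidirectProduct.mul_left, Pi.mul_apply, tr_apply, cHom_right]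
  rfl

@[simp] theorem coc_one (w : W) : coc cs ht hN w 1 = 1 := by
  rw [coc, map_one]; rfl

theorem coc_inv (w : W) (a : Art M) :
    coc cs ht hN w a⁻¹ = (coc cs ht hN (w * (theta cs a)⁻¹) a)⁻¹ := by
  have h1 := coc_mul cs ht hN w a⁻¹ a
  rw [inv_mul_cancel, coc_one, map_inv] at h1
  exact (inv_eq_of_mul_eq_one_left h1.symm).symm

theorem coc_left {u : W} (hu : u ∈ Wt cs t) (w : W) (a : Art M) :
    coc cs ht hN (u * w) a = coc cs ht hN w a := by
  induction a using art_induction generalizing w with
  | h1 => simp
  | hg i => rw [coc_ag, coc_ag, step_mul hN hu]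
  | hm a b ha hb => rw [coc_mul, coc_mul, ha, mul_assoc, hb]
  | hi a ha => rw [coc_inv, coc_inv, mul_assoc, ha]

theorem theta_artMap_mem (a : Art N) : theta cs (artMap t hN a) ∈ Wt cs t := by
  induction a using art_induction with
  | h1 => simp [Subgroup.one_mem]
  | hg i => rw [artMap_ag, theta_ag]; exact simple_mem_Wt cs t i
  | hm a b ha hb => rw [map_mul, map_mul]; exact Subgroup.mul_mem _ ha hb
  | hi a ha => rw [map_inv, map_inv]; exact Subgroup.inv_mem _ ha

theorem coc_self {u : W} (hu : u ∈ Wt cs t) (a : Art N) :
    coc cs ht hN u (artMap t hN a) = a := by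
  induction a using art_induction generalizing u with
  | h1 => simp
  | hg i =>
    rw [artMap_ag, coc_ag]
    apply step_eq ht
    have h1 : IsRed cs t 1 := fun c => one_asc cs _
    have h2 := red_eq hN hu h1
    rw [mul_one] at h2
    rw [h2, mul_one, one_mul]
  | hm a b ha hb =>
    rw [map_mul, coc_mul, ha hu, hb (Subgroup.mul_mem _ hu (theta_artMap_mem cs hN a))]
  | hi a ha =>
    rw [map_inv, coc_inv, ha (Subgroup.mul_mem _ hu
      (Subgroup.inv_mem _ (theta_artMap_mem cs hN a)))]

/-- Standard parabolic subgroups embed. -/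
theorem artMap_injective (cs : CoxeterSystem M W) (ht : Function.Injective t)
    (hN : ∀ c c', N c c' = M (t c) (t c')) : Function.Injective (artMap t hN) := by
  intro a b h
  rw [← coc_self cs ht hN (Subgroup.one_mem _) a, h, coc_self cs ht hN (Subgroup.one_mem _) b]

theorem coc_pure_mul (w : W) (a b : Art M) (ha : theta cs a = 1) :
    coc cs ht hN w (a * b) = coc cs ht hN w a * coc cs ht hN w b := by
  rw [coc_mul, ha, mul_one]

theorem coc_conj_pure (w : W) (a h : Art M) (hh : theta cs h = 1) :
    coc cs ht hN w (a * h * a⁻¹) =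
      coc cs ht hN w a * coc cs ht hN (w * theta cs a) h * (coc cs ht hN w a)⁻¹ := by
  rw [coc_mul, coc_mul, coc_inv, map_mul, hh, mul_one, mul_inv_cancel_right]

end

section conj

variable {B W C D : Type} [Fintype B] [Group W] {M : CoxeterMatrix B} {cs : CoxeterSystem M W}
  {t : C → B} {N : CoxeterMatrix C} {N' : CoxeterMatrix D} {j : D → C} {t' : D → B} {d : W}

/-- The cocycle in a conjugated coset. -/
theorem coc_conj (ht : Function.Injective t) (hj : Function.Injective j)
    (hN : ∀ c c', N c c' = M (t c) (t c'))
    (ht' : Function.Injective t') (hN' : ∀ e e', N' e e' = M (t' e) (t' e'))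
    (hjN : ∀ e e', N' e e' = N (j e) (j e'))
    (hd : IsRed cs t d) (heq : ∀ e, cs.simple (t (j e)) * d = d * cs.simple (t' e))
    (Y : Subgroup W) (hY : ∀ e, cs.simple (t' e) ∈ Y)
    (hout : ∀ c, c ∉ Set.range j → ∀ y ∈ Y, Asc cs (d * y) (t c)) (V : Set B)
    (hV : ∀ v ∈ V, cs.simple v ∈ Y) {a : Art M} (ha : a ∈ Subgroup.closure (ag M '' V))
    {y : W} (hy : y ∈ Y) :
    coc cs ht hN (d * y) a = artMap j hjN (coc cs ht' hN' y a) := by
  have hth : ∀ a ∈ Subgroup.closure (ag M '' V), theta cs a ∈ Y := by
    intro a ha
    induction ha using Subgroup.closure_induction with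
    | mem x hx => obtain ⟨v, hv, rfl⟩ := hx; rw [theta_ag]; exact hV v hv
    | one => rw [map_one]; exact Y.one_mem
    | mul x z _ _ hx hz => rw [map_mul]; exact Y.mul_mem hx hz
    | inv x _ hx => rw [map_inv]; exact Y.inv_mem hx
  induction ha using Subgroup.closure_induction generalizing y with
  | mem x hx =>
    obtain ⟨v, hv, rfl⟩ := hx
    rw [coc_ag, coc_ag]
    exact step_conj ht hj hN hjN hd heq Y hY hout hy (hV v hv)
  | one => simp
  | mul a b ha _ iha ihb =>
    rw [coc_mul, coc_mul, map_mul, iha hy, mul_assoc, ihb (Y.mul_mem hy (hth a ha))]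
  | inv a ha iha =>
    rw [coc_inv, coc_inv, map_inv, mul_assoc, iha (Y.mul_mem hy (Y.inv_mem (hth a ha)))]

end conj

end Pool.Agent.ArtSph
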