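import Pool.Agent.FBuild.Red

/-!
Coxeter groups through the numbers game: reflections, reduced elements, double cosets.
-/

set_option autoImplicit false

namespace Pool.Agent.ArtSph

open CoxeterSystem Pool.Agent.FBuild

theorem lim0 (a c : ℝ) (h : ∀ ε : ℝ, 0 < ε → 0 < a + ε * c) : 0 ≤ a := by
  by_contra hn
  push Not at hn
  by_cases hc : c ≤ 0
  · have := h 1 one_pos
    linarith
  · push Not at hc
    have h1 := h (-a / (2 * c)) (by apply div_pos <;> linarith)
    have h2 : -a / (2 * c) * c = -a / 2 := by field_simp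
    rw [h2] at h1
    linarith

section

variable {B W : Type} [Group W] {M : CoxeterMatrix B} (cs : CoxeterSystem M W)

/-- `i` is an ascent of `w` (on the left). -/
def Asc (w : W) (i : B) : Prop := cs.length w < cs.length (cs.simple i * w)

theorem asc_pos {w : W} {i : B} (h : Asc cs w i) (v : B → ℝ) (hv : ∀ j, 0 < v j) :
    0 < game cs w v i := (game_iff cs v hv w i).1 h

theorem asc_of_pos {w : W} {i : B} (v : B → ℝ) (hv : ∀ j, 0 < v j) (h : 0 < game cs w v i) :
    Asc cs w i := (game_iff cs v hv w i).2 h

theorem game_mul_apply (w w' : W) (v : B → ℝ) :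
    game cs (w * w') v = game cs w (game cs w' v) := by
  rw [map_mul]; rfl

theorem game_simple_self (i : B) (v : B → ℝ) : game cs (cs.simple i) v i = -v i := by
  rw [game_simple, act_apply, kM_diag]; ring

theorem not_asc_simple_mul {w : W} {i : B} (h : Asc cs w i) : ¬ Asc cs (cs.simple i * w) i := by
  intro h'
  unfold Asc at h h'
  rw [cs.simple_mul_simple_cancel_left] at h'
  omega

theorem asc_simple_mul {w : W} {i : B} (h : ¬ Asc cs w i) : Asc cs (cs.simple i * w) i := by
  unfold Asc at h ⊢
  rw [cs.simple_mul_simple_cancel_left]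
  have := cs.length_simple_mul w i
  omega

theorem not_asc_neg {w : W} {i : B} (h : ¬ Asc cs w i) (v : B → ℝ) (hv : ∀ j, 0 < v j) :
    game cs w v i < 0 := by
  have h1 := asc_pos cs (asc_simple_mul cs h) v hv
  rw [game_mul_apply, game_simple_self] at h1
  linarith

theorem eq_one_of_pos {w : W} (v : B → ℝ) (hv : ∀ j, 0 < v j) (h : ∀ i, 0 < game cs w v i) :
    w = 1 := by
  by_contra hw
  obtain ⟨i, hi⟩ := cs.exists_leftDescent_of_ne_one hw
  have h1 := asc_of_pos cs v hv (h i)
  unfold Asc at h1
  have h2 : cs.length (cs.simple i * w) < cs.length w := hi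
  omega

theorem one_asc (i : B) : Asc cs 1 i := by
  unfold Asc
  simp

theorem asc_nonneg {w : W} {i : B} (h : Asc cs w i) (q : B → ℝ) (hq : ∀ j, 0 ≤ q j) :
    0 ≤ game cs w q i := by
  apply lim0 _ (game cs w (fun _ => 1) i)
  intro ε hε
  have h1 := asc_pos cs h (q + ε • (fun _ => (1 : ℝ))) (fun j => by
    simp only [Pi.add_apply, Pi.smul_apply, smul_eq_mul, mul_one]
    have := hq j
    linarith)
  rw [map_add, map_smul] at h1
  simpa using h1

theorem not_asc_nonpos {w : W} {i : B} (h : ¬ Asc cs w i) (q : B → ℝ) (hq : ∀ j, 0 ≤ q j) :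
    game cs w q i ≤ 0 := by
  have h1 := asc_nonneg cs (asc_simple_mul cs h) q hq
  rw [game_mul_apply, game_simple_self] at h1
  linarith

/-- A coordinate functional vanishing on a face is a multiple of the coordinate. -/
theorem face [Fintype B] {w : W} {i j : B} (h : Asc cs w i)
    (h0 : ∀ q : B → ℝ, (∀ k, 0 ≤ q k) → q j = 0 → game cs w q i = 0) :
    ∃ b : ℝ, 0 < b ∧ ∀ p : B → ℝ, game cs w p i = b * p j := by
  classical
  set e : B → ℝ := Pi.single j 1 with he
  have hnn : ∀ p : B → ℝ, (∀ k, 0 ≤ p k) → game cs w p i = game cs w e i * p j := by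
    intro p hp
    have h1 : p = (p - p j • e) + p j • e := by abel
    have h2 : game cs w (p - p j • e) i = 0 := by
      apply h0
      · intro k
        by_cases hk : k = j
        · subst hk; simp [he]
        · simp [he, Pi.single_eq_of_ne hk, hp k]
      · simp [he]
    rw [h1, map_add, map_smul, Pi.add_apply, h2, Pi.smul_apply, smul_eq_mul]
    simp [he]
    ring
  have hall : ∀ p : B → ℝ, game cs w p i = game cs w e i * p j := by
    intro p
    have h1 : p = (fun k => max (p k) 0) - (fun k => max (-p k) 0) := by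
      funext k
      simp only [Pi.sub_apply]
      rcases le_total 0 (p k) with hk | hk
      · rw [max_eq_left hk, max_eq_right (by linarith)]; ring
      · rw [max_eq_right hk, max_eq_left (by linarith)]; ring
    rw [h1, map_sub, Pi.sub_apply, hnn _ (fun k => le_max_right _ _),
      hnn _ (fun k => le_max_right _ _), Pi.sub_apply]
    ring
  refine ⟨game cs w e i, ?_, hall⟩
  have h3 := asc_pos cs h (fun _ => 1) (fun _ => one_pos)
  rw [hall] at h3
  simpa using h3

/-- Equality of reflections from proportional functionals. -/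
theorem refl_eq [Fintype B] {w : W} {i j : B} (b : ℝ) (hb : 0 < b)
    (h : ∀ p : B → ℝ, game cs w p i = b * p j) : cs.simple i * w = w * cs.simple j := by
  classical
  set g : W := cs.simple j * (w⁻¹ * (cs.simple i * w)) with hg
  set η : B → ℝ := game cs w⁻¹ (kM M i) with hη
  have hww : ∀ p : B → ℝ, game cs w (game cs w⁻¹ p) = p := by
    intro p
    rw [← game_mul_apply, mul_inv_cancel, map_one]; rfl
  have hww' : ∀ p : B → ℝ, game cs w⁻¹ (game cs w p) = p := by
    intro p
    rw [← game_mul_apply, inv_mul_cancel, map_one]; rfl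
  have hr : ∀ p : B → ℝ, game cs (w⁻¹ * (cs.simple i * w)) p = p + (b * p j) • η := by
    intro p
    rw [game_mul_apply, game_mul_apply, game_simple, act_apply', map_add, hww', map_smul, h]
  have hrj : ∀ p : B → ℝ, (p + (b * p j) • η) j = - p j := by
    intro p
    have h1 := h (game cs (w⁻¹ * (cs.simple i * w)) p)
    rw [← game_mul_apply, mul_inv_cancel_left, game_mul_apply, game_simple_self, h, hr] at h1
    have h2 : b * ((p + (b * p j) • η) j + p j) = 0 := by linarith
    have h3 := (mul_eq_zero.1 h2).resolve_left hb.ne'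
    linarith
  have hgp : ∀ (p : B → ℝ) (t : B), game cs g p t = p t + p j * (b * η t - kM M j t) := by
    intro p t
    rw [hg, game_mul_apply, hr, game_simple, act_apply, hrj]
    simp only [Pi.add_apply, Pi.smul_apply, smul_eq_mul]
    ring
  -- choose a point close to the face
  obtain ⟨K, hK⟩ : ∃ K : ℝ, ∀ t, |b * η t - kM M j t| ≤ K := by
    refine ⟨∑ t, |b * η t - kM M j t|, fun t => ?_⟩
    exact Finset.single_le_sum (f := fun t => |b * η t - kM M j t|)
      (fun _ _ => abs_nonneg _) (Finset.mem_univ t)
  have hK0 : 0 ≤ K := (abs_nonneg _).trans (hK j)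
  set ε : ℝ := 1 / (K + 1) with hε
  have hε0 : 0 < ε := by positivity
  have hεK : ε * K < 1 := by
    rw [hε, one_div, inv_mul_lt_iff₀ (by positivity)]; linarith
  set p : B → ℝ := fun t => if t = j then ε else 1 with hp
  have hpj : p j = ε := by simp [hp]
  have hppos : ∀ t, 0 < p t := by
    intro t
    simp only [hp]
    split_ifs
    · exact hε0
    · exact one_pos
  have hg1 : g = 1 := by
    apply eq_one_of_pos cs p hppos
    intro t
    by_cases ht : t = j
    · subst ht
      have h1 := hrj p
      have h2 : game cs g p t = p t := by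
        rw [hg, game_mul_apply, hr, game_simple_self, h1]; ring
      rw [h2]; exact hppos t
    · rw [hgp]
      have h1 : p t = 1 := by simp [hp, ht]
      rw [h1, hpj]
      have h2 := hK t
      have h3 : |ε * (b * η t - kM M j t)| ≤ ε * K := by
        rw [abs_mul, abs_of_pos hε0]
        exact mul_le_mul_of_nonneg_left h2 hε0.le
      have h4 := (abs_le.1 h3).1
      linarith
  have h5 : w⁻¹ * (cs.simple i * w) = cs.simple j := by
    have : cs.simple j * g = cs.simple j * 1 := by rw [hg1]
    rw [hg, cs.simple_mul_simple_cancel_left, mul_one] at this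
    exact this
  rw [← h5, mul_inv_cancel_left]

/-- Deodhar's lemma. -/
theorem deodhar [Fintype B] {v : W} {i j : B} (h1 : Asc cs v i)
    (h2 : ¬ Asc cs (v * cs.simple j) i) : cs.simple i * v = v * cs.simple j := by
  obtain ⟨b, hb, h3⟩ := face cs (j := j) h1 (by
    intro q hq hqj
    apply le_antisymm
    · have h4 := not_asc_nonpos cs h2 q hq
      rw [game_mul_apply, game_simple, act_apply', hqj, zero_smul, add_zero] at h4
      exact h4
    · exact asc_nonneg cs h1 q hq)
  exact refl_eq cs b hb h3

/-- From an equality of reflections to proportional functionals. -/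
theorem prop_of_eq {d : W} {i j : B} (h1 : Asc cs d i)
    (h : cs.simple i * d = d * cs.simple j) :
    ∃ b : ℝ, 0 < b ∧ ∀ p : B → ℝ, game cs d p i = b * p j := by
  have h2 : ∀ p : B → ℝ, game cs d p i = (-(1 / 2) * game cs d (kM M j) i) * p j := by
    intro p
    have h3 : game cs (cs.simple i * d) p i = game cs (d * cs.simple j) p i := by rw [h]
    rw [game_mul_apply, game_mul_apply, game_simple_self, game_simple, act_apply', map_add,
      map_smul] at h3
    simp only [Pi.add_apply, Pi.smul_apply, smul_eq_mul] at h3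
    linarith
  refine ⟨_, ?_, h2⟩
  have h3 := asc_pos cs h1 (fun _ => 1) (fun _ => one_pos)
  rw [h2] at h3
  simpa using h3

theorem asc_mul_iff {d : W} {i j : B} (h1 : Asc cs d i)
    (h : cs.simple i * d = d * cs.simple j) (y : W) : Asc cs (d * y) i ↔ Asc cs y j := by
  obtain ⟨b, hb, h2⟩ := prop_of_eq cs h1 h
  constructor
  · intro h3
    have h4 := asc_pos cs h3 (fun _ => 1) (fun _ => one_pos)
    rw [game_mul_apply, h2] at h4
    exact asc_of_pos cs (fun _ => 1) (fun _ => one_pos) ((mul_pos_iff_of_pos_left hb).1 h4)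
  · intro h3
    have h4 := asc_pos cs h3 (fun _ => 1) (fun _ => one_pos)
    apply asc_of_pos cs (fun _ => 1) (fun _ => one_pos)
    rw [game_mul_apply, h2]
    exact mul_pos hb h4

theorem asc_inv {w : W} {i : B} : Asc cs w⁻¹ i ↔ cs.length w < cs.length (w * cs.simple i) := by
  unfold Asc
  rw [cs.length_inv, ← cs.length_inv (cs.simple i * w⁻¹), mul_inv_rev, inv_inv, cs.inv_simple]

/-- The order of the product of two simple reflections. -/
theorem orderOf_simple_mul (i j : B) : orderOf (cs.simple i * cs.simple j) = M i j := by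
  by_cases hij : i = j
  · subst hij
    rw [cs.simple_mul_simple_self, orderOf_one, M.diagonal]
  have key : ∀ n : ℕ, 0 < n → (M j i = 0 ∨ n < M j i) → (cs.simple i * cs.simple j) ^ n ≠ 1 := by
    intro n hn hnm hpow
    have hrel : altM (cs.simple i) (cs.simple j) n = altM (cs.simple j) (cs.simple i) n :=
      altM_rel _ _ (cs.simple_mul_simple_self i) (cs.simple_mul_simple_self j) n hpow
    obtain ⟨V, V0, V1, Vrec, Vpos, Vnn⟩ := exists_V (M j i) (M.off_diagonal j i (Ne.symm hij))
    set v : B → ℝ := fun _ => 1 with hv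
    have hr := rank2 (kM M) _ V V0 V1 Vrec v n j i (kM_diag j) (kM_diag i)
      (by rw [kM]) (by rw [kM_symm, kM])
    have hpos : 0 < (altM (act (kM M) i) (act (kM M) j) n v) j := by
      rw [hr]
      have q1 : 0 < V n := Vpos n hn hnm
      have q2 : 0 ≤ V (n + 1) := Vnn (n + 1) (by omega)
      simp only [hv, ite_self, mul_one]
      linarith
    obtain ⟨n', hn'⟩ : ∃ n', n = n' + 1 := ⟨n - 1, by omega⟩
    have hneg : (altM (act (kM M) j) (act (kM M) i) n v) j ≤ 0 := by
      rw [hn', altM]
      have h1 : (act (kM M) j * altM (act (kM M) i) (act (kM M) j) n') v =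
          act (kM M) j (altM (act (kM M) i) (act (kM M) j) n' v) := rfl
      rw [h1, act_apply, kM_diag]
      have hr' := rank2 (kM M) _ V V0 V1 Vrec v n' j i (kM_diag j) (kM_diag i)
        (by rw [kM]) (by rw [kM_symm, kM])
      rw [hr']
      have q1 : 0 ≤ V n' := Vnn n' (by omega)
      have q2 : 0 ≤ V (n' + 1) := Vnn (n' + 1) (by omega)
      simp only [hv, ite_self, mul_one]
      linarith
    have e : altM (act (kM M) i) (act (kM M) j) n v = altM (act (kM M) j) (act (kM M) i) n v := by
      have e1 := congrArg (fun w => game cs w v) hrel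
      simp only [altM_hom, game_simple] at e1
      exact e1
    rw [e] at hpos
    linarith
  by_cases h0 : M i j = 0
  · rw [h0, orderOf_eq_zero_iff']
    intro n hn
    exact key n hn (Or.inl (by rw [M.symmetric]; exact h0))
  · rw [orderOf_eq_iff (Nat.pos_of_ne_zero h0)]
    refine ⟨cs.simple_mul_simple_pow i j, fun n hn hn0 => ?_⟩
    exact key n hn0 (Or.inr (by rw [M.symmetric]; exact hn))

theorem simple_inj {i j : B} (h : cs.simple i = cs.simple j) : i = j := by
  by_contra hij
  have h1 := orderOf_simple_mul cs i j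
  rw [h, cs.simple_mul_simple_self, orderOf_one] at h1
  exact M.off_diagonal i j hij h1.symm

end

end Pool.Agent.ArtSph
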