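import Pool.Agent.ArtSph.Cox

/-!
Reduced elements with respect to a labelled embedding of Coxeter matrices; double cosets.
-/

set_option autoImplicit false

namespace Pool.Agent.ArtSph

open CoxeterSystem Pool.Agent.FBuild

section

variable {B W C : Type} [Group W] {M : CoxeterMatrix B} (cs : CoxeterSystem M W) (t : C → B)

/-- `v` has no left descent in the image of `t`. -/
def IsRed (v : W) : Prop := ∀ c, Asc cs v (t c)

/-- The parabolic subgroup of the image of `t`. -/
def Wt : Subgroup W := Subgroup.closure (Set.range fun c => cs.simple (t c))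

theorem simple_mem_Wt (c : C) : cs.simple (t c) ∈ Wt cs t := Subgroup.subset_closure ⟨c, rfl⟩

theorem mem_Wt_iff (u : W) : u ∈ Wt cs t ↔ ∃ ω : List C, u = cs.wordProd (ω.map t) := by
  constructor
  · intro h
    induction h using Subgroup.closure_induction with
    | mem x hx =>
      obtain ⟨c, rfl⟩ := hx
      exact ⟨[c], by simp⟩
    | one => exact ⟨[], by simp⟩
    | mul x y _ _ hx hy =>
      obtain ⟨ω, rfl⟩ := hx
      obtain ⟨ω', rfl⟩ := hy
      exact ⟨ω ++ ω', by rw [List.map_append, cs.wordProd_append]⟩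
    | inv x _ hx =>
      obtain ⟨ω, rfl⟩ := hx
      exact ⟨ω.reverse, by rw [List.map_reverse, cs.wordProd_reverse]⟩
  · rintro ⟨ω, rfl⟩
    induction ω with
    | nil => simp
    | cons c ω ih =>
      rw [List.map_cons, cs.wordProd_cons]
      exact (Wt cs t).mul_mem (simple_mem_Wt cs t c) ih

theorem exists_dec (w : W) : ∃ u ∈ Wt cs t, ∃ v, IsRed cs t v ∧ w = u * v := by
  induction hn : cs.length w using Nat.strong_induction_on generalizing w with
  | _ n ih =>
    by_cases h : IsRed cs t w
    · exact ⟨1, (Wt cs t).one_mem, w, h, by rw [one_mul]⟩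
    · unfold IsRed at h
      push Not at h
      obtain ⟨c, hc⟩ := h
      have h1 : cs.length (cs.simple (t c) * w) < n := by
        unfold Asc at hc
        have := cs.length_simple_mul w (t c)
        omega
      obtain ⟨u, hu, v, hv, huv⟩ := ih _ h1 _ rfl
      refine ⟨cs.simple (t c) * u, (Wt cs t).mul_mem (simple_mem_Wt cs t c) hu, v, hv, ?_⟩
      rw [mul_assoc, ← huv, cs.simple_mul_simple_cancel_left]

/-- The reduced representative of the left coset. -/
noncomputable def red (w : W) : W := (exists_dec cs t w).choose_spec.2.choose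

theorem red_isRed (w : W) : IsRed cs t (red cs t w) :=
  (exists_dec cs t w).choose_spec.2.choose_spec.1

theorem red_dec (w : W) : ∃ u ∈ Wt cs t, w = u * red cs t w :=
  ⟨(exists_dec cs t w).choose, (exists_dec cs t w).choose_spec.1,
    (exists_dec cs t w).choose_spec.2.choose_spec.2⟩

variable {cs t} {N : CoxeterMatrix C} (hN : ∀ c c', N c c' = M (t c) (t c'))

/-- The homomorphism of Coxeter groups. -/
noncomputable def incl (cs : CoxeterSystem M W) {t : C → B} {N : CoxeterMatrix C}
    (hN : ∀ c c', N c c' = M (t c) (t c')) : N.Group →* W :=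
  N.toCoxeterSystem.lift ⟨fun c => cs.simple (t c), fun c c' => by
    rw [hN]; exact cs.simple_mul_simple_pow _ _⟩

theorem incl_simple (c : C) : incl cs hN (N.simple c) = cs.simple (t c) := by
  have h := N.toCoxeterSystem.lift_apply_simple
    (f := fun c => cs.simple (t c)) (fun c c' => by
    rw [hN]; exact cs.simple_mul_simple_pow _ _) c
  exact h

theorem incl_wordProd (ω : List C) :
    incl cs hN (N.toCoxeterSystem.wordProd ω) = cs.wordProd (ω.map t) := by
  induction ω with
  | nil => simp
  | cons c ω ih =>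
    rw [wordProd_cons, map_mul, ih, List.map_cons, wordProd_cons]
    congr 1
    exact incl_simple hN c

include hN in
theorem red_uniq {u v : W} (hu : u ∈ Wt cs t) (hv : IsRed cs t v) (huv : IsRed cs t (u * v)) :
    u = 1 := by
  obtain ⟨ω, rfl⟩ := (mem_Wt_iff cs t u).1 hu
  have h1 := game_comap cs N.toCoxeterSystem t hN ω (game cs v (fun _ => 1))
  have h2 : N.toCoxeterSystem.wordProd ω = 1 := by
    apply eq_one_of_pos N.toCoxeterSystem (fun i => game cs v (fun _ => 1) (t i))
    · intro c
      exact asc_pos cs (hv c) _ (fun _ => one_pos)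
    · intro c
      rw [← h1]
      have h3 := asc_pos cs (huv c) (fun _ => 1) (fun _ => one_pos)
      rw [game_mul_apply] at h3
      exact h3
  rw [← incl_wordProd hN, h2, map_one]

include hN in
theorem red_eq {u v : W} (hu : u ∈ Wt cs t) (hv : IsRed cs t v) : red cs t (u * v) = v := by
  obtain ⟨u', hu', h⟩ := red_dec cs t (u * v)
  have h1 : u'⁻¹ * u ∈ Wt cs t := (Wt cs t).mul_mem ((Wt cs t).inv_mem hu') hu
  have h2 : red cs t (u * v) = (u'⁻¹ * u) * v := by
    rw [mul_assoc]
    exact eq_inv_mul_of_mul_eq h.symm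
  have h3 := red_uniq hN h1 hv (by rw [← h2]; exact red_isRed cs t _)
  rw [h2, h3, one_mul]

include hN in
theorem red_of_isRed {v : W} (hv : IsRed cs t v) : red cs t v = v := by
  have := red_eq hN (Wt cs t).one_mem hv
  rwa [one_mul] at this

include hN in
theorem red_mul {u : W} (hu : u ∈ Wt cs t) (w : W) : red cs t (u * w) = red cs t w := by
  obtain ⟨u', hu', h⟩ := red_dec cs t w
  nth_rewrite 1 [h]
  rw [← mul_assoc]
  exact red_eq hN ((Wt cs t).mul_mem hu hu') (red_isRed cs t w)

variable (cs t)

/-- Double coset representatives. -/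
theorem exists_double (V : Set B) (w : W) : ∃ u ∈ Wt cs t, ∃ d : W,
    ∃ y ∈ Subgroup.closure (cs.simple '' V), w = u * (d * y) ∧ IsRed cs t d ∧
      ∀ v ∈ V, Asc cs d⁻¹ v := by
  classical
  have hex : ∃ n : ℕ, ∃ u ∈ Wt cs t, ∃ d : W, ∃ y ∈ Subgroup.closure (cs.simple '' V),
      w = u * (d * y) ∧ cs.length d = n :=
    ⟨_, 1, (Wt cs t).one_mem, w, 1, Subgroup.one_mem _, by simp, rfl⟩
  obtain ⟨u, hu, d, y, hy, hw, hd⟩ := Nat.find_spec hex
  have hmin : ∀ u' ∈ Wt cs t, ∀ d' : W, ∀ y' ∈ Subgroup.closure (cs.simple '' V),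
      w = u' * (d' * y') → cs.length d ≤ cs.length d' := by
    intro u' hu' d' y' hy' h
    rw [hd]
    exact Nat.find_min' hex ⟨u', hu', d', y', hy', h, rfl⟩
  refine ⟨u, hu, d, y, hy, hw, ?_, ?_⟩
  · intro c
    by_contra hc
    have h1 := hmin (u * cs.simple (t c)) ((Wt cs t).mul_mem hu (simple_mem_Wt cs t c))
      (cs.simple (t c) * d) y hy (by
        rw [hw]; simp only [mul_assoc, cs.simple_mul_simple_cancel_left])
    unfold Asc at hc
    have := cs.length_simple_mul d (t c)
    omega
  · intro v hv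
    by_contra hc
    have h1 := hmin u hu (d * cs.simple v) (cs.simple v * y)
      (Subgroup.mul_mem _ (Subgroup.subset_closure ⟨v, hv, rfl⟩) hy) (by
        rw [hw]; simp only [mul_assoc, cs.simple_mul_simple_cancel_left])
    rw [asc_inv] at hc
    have := cs.length_mul_simple d v
    omega

theorem game_fix {V : Set B} {y : W} (hy : y ∈ Subgroup.closure (cs.simple '' V))
    (q : B → ℝ) (hq : ∀ v ∈ V, q v = 0) : game cs y q = q := by
  induction hy using Subgroup.closure_induction with
  | mem x hx =>
    obtain ⟨v, hv, rfl⟩ := hx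
    rw [game_simple, act_apply', hq v hv, zero_smul, add_zero]
  | one => rw [map_one]; rfl
  | mul x y _ _ hx hy => rw [game_mul_apply, hy, hx]
  | inv x _ hx =>
    nth_rewrite 1 [← hx]
    rw [← game_mul_apply, inv_mul_cancel, map_one]; rfl

/-- The lemma on double cosets. -/
theorem double_coset [Fintype B] {V : Set B} {d : W} {i : B} (hd : Asc cs d i)
    (hdV : ∀ v ∈ V, Asc cs d⁻¹ v) {y : W} (hy : y ∈ Subgroup.closure (cs.simple '' V))
    (hdy : ¬ Asc cs (d * y) i) : ∃ v ∈ V, cs.simple i * d = d * cs.simple v := by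
  classical
  -- the functional vanishes on the face of `V`
  have h0 : ∀ q : B → ℝ, (∀ k, 0 ≤ q k) → (∀ v ∈ V, q v = 0) → game cs d q i = 0 := by
    intro q hq hqV
    apply le_antisymm
    · have h4 := not_asc_nonpos cs hdy q hq
      rw [game_mul_apply, game_fix cs hy q hqV] at h4
      exact h4
    · exact asc_nonneg cs hd q hq
  set β : B → ℝ := fun k => game cs d (Pi.single k 1) i with hβ
  have hβ0 : ∀ k, k ∉ V → β k = 0 := by
    intro k hk
    apply h0
    · intro l
      by_cases hl : l = k
      · subst hl; simp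
      · simp [Pi.single_eq_of_ne hl]
    · intro v hv
      have : v ≠ k := by rintro rfl; exact hk hv
      simp [Pi.single_eq_of_ne this]
  have hβnn : ∀ k, 0 ≤ β k := by
    intro k
    apply asc_nonneg cs hd
    intro l
    by_cases hl : l = k
    · subst hl; simp
    · simp [Pi.single_eq_of_ne hl]
  have hsum : ∀ p : B → ℝ, game cs d p i = ∑ k, p k * β k := by
    intro p
    have h1 : p = ∑ k, p k • (Pi.single k 1 : B → ℝ) := by
      funext l
      simp [Finset.sum_apply, Pi.single_apply]
    conv_lhs => rw [h1]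
    rw [map_sum, Finset.sum_apply]
    apply Finset.sum_congr rfl
    intro k _
    rw [map_smul, Pi.smul_apply, smul_eq_mul]
  obtain ⟨k, hk⟩ : ∃ k, 0 < β k := by
    by_contra hcon
    push Not at hcon
    have h1 := asc_pos cs hd (fun _ => 1) (fun _ => one_pos)
    rw [hsum] at h1
    have h2 : ∑ k, (1 : ℝ) * β k ≤ 0 := Finset.sum_nonpos (fun k _ => by
      rw [one_mul]; exact hcon k)
    linarith
  have hkV : k ∈ V := by
    by_contra hkV
    rw [hβ0 k hkV] at hk
    exact lt_irrefl _ hk
  refine ⟨k, hkV, ?_⟩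
  have hdd : ∀ p : B → ℝ, game cs d (game cs d⁻¹ p) = p := by
    intro p
    rw [← game_mul_apply, mul_inv_cancel, map_one]; rfl
  obtain ⟨b, hb, h3⟩ := face cs (w := d⁻¹) (i := k) (j := i) (hdV k hkV) (by
    intro q hq hqi
    have h4 := hsum (game cs d⁻¹ q)
    rw [hdd, hqi] at h4
    have h5 : ∀ l ∈ Finset.univ, 0 ≤ game cs d⁻¹ q l * β l := by
      intro l _
      by_cases hl : l ∈ V
      · exact mul_nonneg (asc_nonneg cs (hdV l hl) q hq) (hβnn l)
      · rw [hβ0 l hl, mul_zero]
    have h6 := (Finset.sum_eq_zero_iff_of_nonneg h5).1 h4.symm k (Finset.mem_univ k)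
    exact (mul_eq_zero.1 h6).resolve_right hk.ne')
  have h7 := refl_eq cs b hb h3
  have h8 : d * (cs.simple k * d⁻¹) * d = d * (d⁻¹ * cs.simple i) * d := by rw [h7]
  simp only [mul_assoc, inv_mul_cancel, mul_one, mul_inv_cancel_left] at h8
  exact h8.symm

end

end Pool.Agent.ArtSph
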