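import Pool.Agent.ArtSph.Struct

/-!
The pure part of an elementwise spherical subgroup embeds in a finite product of spherical
standard parabolic subgroups.
-/

set_option autoImplicit false

namespace Pool.Agent.ArtSph

open CoxeterSystem Pool.Agent.FBuild

section

variable {B : Type} [Fintype B] (M : CoxeterMatrix B)

/-- The standard parabolic subgroup of the Coxeter group is finite. -/
def Sph (T : Set B) : Prop :=
  ((Subgroup.closure (M.simple '' T) : Subgroup M.Group) : Set M.Group).Finite

/-- Every element of `H` lies in a spherical parabolic subgroup. -/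
def ES (H : Subgroup (Art M)) : Prop :=
  ∀ h ∈ H, ∃ T : Set B, Sph M T ∧ ∃ g, g⁻¹ * h * g ∈ Subgroup.closure (ag M '' T)

/-- The filtration. -/
noncomputable def Kr (H : Subgroup (Art M)) (r : ℕ) : Subgroup (Art M) where
  carrier := {h | h ∈ H ∧ th M h = 1 ∧ Triv M r h}
  one_mem' := ⟨H.one_mem, map_one _, fun C t ht _ w => coc_one _ _ _ _⟩
  mul_mem' := by
    rintro a b ⟨ha, ha', ha''⟩ ⟨hb, hb', hb''⟩
    refine ⟨H.mul_mem ha hb, by rw [map_mul, ha', hb', one_mul], ?_⟩
    intro C t ht hC w
    have h1 := ha'' C t ht hC w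
    have h2 := hb'' C t ht hC w
    unfold pc at *
    rw [coc_pure_mul _ _ _ _ _ _ ha', h1, h2, one_mul]
  inv_mem' := by
    rintro a ⟨ha, ha', ha''⟩
    refine ⟨H.inv_mem ha, by rw [map_inv, ha', inv_one], ?_⟩
    intro C t ht hC w
    have h1 := ha'' C t ht hC w
    unfold pc at *
    rw [coc_inv]
    have : theta M.toCoxeterSystem a = 1 := ha'
    rw [this, inv_one, mul_one, h1, inv_one]

/-- The proper kernels on the `r`-th step of the filtration. -/
def NN (H : Subgroup (Art M)) (r : ℕ) : Set (Subgroup ↥(Kr M H r)) :=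
  {S | S ≠ ⊤ ∧ ∃ (t : Fin (r + 1) → B) (ht : Function.Injective t) (w : M.Group),
    S = (kerc M t ht w).subgroupOf (Kr M H r)}

variable {M}

omit [Fintype B] in
theorem conj_split (a h : Art M) : h = a * (a⁻¹ * h * a) * a⁻¹ := by group

/-- The bound for the number of kernels. -/
noncomputable def QQ {B : Type} [Fintype B] (M : CoxeterMatrix B) (r : ℕ) : ℕ :=
  Nat.card {t : Fin (r + 1) → B // Function.Injective t} *
    ∑ V : Set B, Nat.card ↥(Subgroup.closure (M.simple '' V))

theorem NN_card {H : Subgroup (Art M)} (hH : ES M H) (r : ℕ)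
    (S : Finset (Subgroup ↥(Kr M H r))) (hS : (S : Set (Subgroup ↥(Kr M H r))) ⊆ NN M H r) :
    S.card ≤ 2 * QQ M r := by
  classical
  obtain ⟨h, hh⟩ := exists_outside S (fun N hN => (hS hN).1)
  obtain ⟨V, hV, a, hk⟩ := hH h.1 h.2.1
  set k := a⁻¹ * (h : Art M) * a with hkdef
  have hsplit : (h : Art M) = a * k * a⁻¹ := conj_split a h
  have hkθ : th M k = 1 := by
    rw [hkdef, map_mul, map_mul, h.2.2.1, map_inv, mul_one, inv_mul_cancel]
  have hfinV : Finite ↥(Subgroup.closure (M.simple '' V)) := hV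
  have hle : (S.filter (fun N => h ∉ N)).card ≤
      Nat.card ({t : Fin (r + 1) → B // Function.Injective t} ×
        ↥(Subgroup.closure (M.simple '' V))) := by
    have hex : ∀ N ∈ S.filter (fun N => h ∉ N),
        ∃ ω : {t : Fin (r + 1) → B // Function.Injective t} ×
          ↥(Subgroup.closure (M.simple '' V)), (N : Set ↥(Kr M H r)) =
            {x : ↥(Kr M H r) | pc M ω.1.1 ω.1.2 ω.2.1 (a⁻¹ * (x : Art M) * a) = 1} := by
      intro N hN
      obtain ⟨hN1, hN2⟩ := Finset.mem_filter.1 hN
      obtain ⟨-, t, ht, w, rfl⟩ := hS hN1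
      have hne : pc M t ht w (a * k * a⁻¹) ≠ 1 := by
        intro h1
        apply hN2
        rw [Subgroup.mem_subgroupOf]
        exact ⟨h.2.2.1, by rw [hsplit]; exact h1⟩
      have hT : Triv M r (a * k * a⁻¹) := by rw [← hsplit]; exact h.2.2.2
      obtain ⟨t', ht', y, -, hy, -, hiff⟩ := dich M t ht (by simp) w hk hkθ hT hne
      refine ⟨⟨⟨t', ht'⟩, ⟨y, hy⟩⟩, ?_⟩
      ext x
      show x ∈ (kerc M t ht w).subgroupOf (Kr M H r) ↔ _
      rw [Subgroup.mem_subgroupOf]
      constructor
      · rintro ⟨-, h2⟩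
        exact (hiff _ x.2.2.1).1 h2
      · intro h2
        exact ⟨x.2.2.1, (hiff _ x.2.2.1).2 h2⟩
    have hne0 : Nonempty ({t : Fin (r + 1) → B // Function.Injective t} ×
          ↥(Subgroup.closure (M.simple '' V))) ∨ S.filter (fun N => h ∉ N) = ∅ := by
      rcases (S.filter (fun N => h ∉ N)).eq_empty_or_nonempty with h0 | ⟨N, hN⟩
      · exact Or.inr h0
      · obtain ⟨ω, -⟩ := hex N hN
        exact Or.inl ⟨ω⟩
    rcases hne0 with hne0 | hne0
    swap
    · rw [hne0, Finset.card_empty]; exact Nat.zero_le _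
    choose! f hf using hex
    have := Fintype.ofFinite ({t : Fin (r + 1) → B // Function.Injective t} ×
          ↥(Subgroup.closure (M.simple '' V)))
    rw [Nat.card_eq_fintype_card]
    apply Finset.card_le_card_of_injOn f (fun _ _ => Finset.mem_univ _)
    intro N hN N' hN' hNN
    apply SetLike.coe_injective
    rw [hf N hN, hf N' hN', hNN]
  have hle2 : Nat.card ({t : Fin (r + 1) → B // Function.Injective t} ×
        ↥(Subgroup.closure (M.simple '' V))) ≤ QQ M r := by
    rw [Nat.card_prod, QQ]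
    apply Nat.mul_le_mul_left
    exact Finset.single_le_sum
      (f := fun V : Set B => Nat.card ↥(Subgroup.closure (M.simple '' V)))
      (fun _ _ => Nat.zero_le _) (Finset.mem_univ V)
  omega

theorem NN_finite {H : Subgroup (Art M)} (hH : ES M H) (r : ℕ) : (NN M H r).Finite := by
  by_contra hinf
  obtain ⟨S, hS, hcard⟩ := (Set.not_finite.1 hinf).exists_subset_card_eq (2 * QQ M r + 1)
  have := NN_card hH r S hS
  omega

theorem NN_ncard {H : Subgroup (Art M)} (hH : ES M H) (r : ℕ) :
    Nat.card ↥(NN M H r) ≤ 2 * QQ M r := by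
  have h1 := NN_finite hH r
  have h2 := NN_card hH r h1.toFinset (by rw [Set.Finite.coe_toFinset])
  rw [← Set.ncard_eq_toFinset_card _ h1] at h2
  exact h2

/-- The bound for the number of factors. -/
noncomputable def nB {B : Type} [Fintype B] (M : CoxeterMatrix B) : ℕ :=
  ∑ r : Fin (Nat.card B), 2 * QQ M r

/-- The parabolic subgroup of a proper kernel is spherical. -/
theorem NN_sph {H : Subgroup (Art M)} (hH : ES M H) {r : ℕ} {t : Fin (r + 1) → B}
    (ht : Function.Injective t) {w : M.Group}
    (hne : (kerc M t ht w).subgroupOf (Kr M H r) ≠ ⊤) : Sph M (Set.range t) := by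
  obtain ⟨h, hh⟩ : ∃ h, h ∉ (kerc M t ht w).subgroupOf (Kr M H r) := by
    by_contra hcon
    push Not at hcon
    exact hne ((Subgroup.eq_top_iff' _).2 hcon)
  obtain ⟨V, hV, a, hk⟩ := hH h.1 h.2.1
  have hsplit : (h : Art M) = a * (a⁻¹ * (h : Art M) * a) * a⁻¹ := conj_split a h
  have hkθ : th M (a⁻¹ * (h : Art M) * a) = 1 := by
    rw [map_mul, map_mul, h.2.2.1, map_inv, mul_one, inv_mul_cancel]
  have hnepc : pc M t ht w (a * (a⁻¹ * (h : Art M) * a) * a⁻¹) ≠ 1 := by
    intro h1
    apply hh
    rw [Subgroup.mem_subgroupOf]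
    exact ⟨h.2.2.1, by rw [hsplit]; exact h1⟩
  have hT : Triv M r (a * (a⁻¹ * (h : Art M) * a) * a⁻¹) := by rw [← hsplit]; exact h.2.2.2
  obtain ⟨t', ht', y, ht'V, -, ⟨d, hd⟩, -⟩ := dich M t ht (by simp) w hk hkθ hT hnepc
  have hmap : ∀ x ∈ Subgroup.closure (M.simple '' Set.range t),
      d⁻¹ * x * d ∈ Subgroup.closure (M.simple '' V) := by
    intro x hx
    induction hx using Subgroup.closure_induction with
    | mem x hx =>
      obtain ⟨_, ⟨c, rfl⟩, rfl⟩ := hx
      have : d⁻¹ * M.simple (t c) * d = M.simple (t' c) := by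
        rw [mul_assoc, hd c, inv_mul_cancel_left]
      rw [this]
      exact Subgroup.subset_closure ⟨_, ht'V c, rfl⟩
    | one => rw [mul_one, inv_mul_cancel]; exact Subgroup.one_mem _
    | mul x z _ _ hx hz =>
      have : d⁻¹ * (x * z) * d = (d⁻¹ * x * d) * (d⁻¹ * z * d) := by group
      rw [this]; exact Subgroup.mul_mem _ hx hz
    | inv x _ hx =>
      have : d⁻¹ * x⁻¹ * d = (d⁻¹ * x * d)⁻¹ := by group
      rw [this]; exact Subgroup.inv_mem _ hx
  apply Set.Finite.of_injOn (f := fun x => d⁻¹ * x * d) (t := (Subgroup.closure (M.simple '' V) :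
    Set M.Group)) hmap _ hV
  intro x _ x' _ hxx
  have h1 : d⁻¹ * x * d = d⁻¹ * x' * d := hxx
  exact mul_left_cancel (mul_right_cancel h1)

variable (M)

/-- The retraction homomorphism on the pure Artin group. -/
noncomputable def rho {C : Type} (t : C → B) (ht : Function.Injective t) (w : M.Group) :
    ↥(th M).ker →* Art (pullM M t ht) where
  toFun h := pc M t ht w h
  map_one' := coc_one _ _ _ _
  map_mul' := fun a _ => coc_pure_mul _ _ _ _ _ _ a.2

/-- The same with values in the standard parabolic subgroup. -/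
noncomputable def rho' {C : Type} (t : C → B) (ht : Function.Injective t) (w : M.Group) :
    ↥(th M).ker →* ↥(Subgroup.closure (ag M '' Set.range t)) :=
  MonoidHom.codRestrict ((artMap t (pull_lab M t ht)).comp (rho M t ht w)) _ (by
    intro h
    rw [MonoidHom.comp_apply]
    generalize rho M t ht w h = a
    induction a using art_induction with
    | h1 => rw [map_one]; exact Subgroup.one_mem _
    | hg i => rw [artMap_ag]; exact Subgroup.subset_closure ⟨_, ⟨i, rfl⟩, rfl⟩
    | hm a b ha hb => rw [map_mul]; exact Subgroup.mul_mem _ ha hb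
    | hi a ha => rw [map_inv]; exact Subgroup.inv_mem _ ha)

theorem rho'_eq_one {C : Type} (t : C → B) (ht : Function.Injective t) (w : M.Group)
    (h : ↥(th M).ker) : rho' M t ht w h = 1 ↔ pc M t ht w h = 1 := by
  rw [← Subtype.coe_inj]
  show artMap t (pull_lab M t ht) (pc M t ht w h) = 1 ↔ _
  constructor
  · intro h1
    exact artMap_injective M.toCoxeterSystem ht (pull_lab M t ht) (by rw [h1, map_one])
  · intro h1
    rw [h1, map_one]

variable {M}

theorem triv_zero (h : Art M) : Triv M 0 h := by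
  intro C t ht hC w
  have hfin : Finite C := Finite.of_injective t ht
  have : IsEmpty C := (Finite.card_eq_zero_iff).1 (by omega)
  generalize pc M t ht w h = a
  induction a using art_induction with
  | h1 => rfl
  | hg i => exact this.elim i
  | hm a b ha hb => rw [ha, hb, one_mul]
  | hi a ha => rw [ha, inv_one]

theorem triv_full {H : Subgroup (Art M)} (hH : ES M H) {h : Art M} (hh : h ∈ H)
    (hθ : th M h = 1) (hT : Triv M (Nat.card B) h) : h = 1 := by
  obtain ⟨V, hV, a, hk⟩ := hH h hh
  have ht : Function.Injective (Subtype.val : V → B) := Subtype.val_injective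
  have hkθ : th M (a⁻¹ * h * a) = 1 := by
    rw [map_mul, map_mul, hθ, map_inv, mul_one, inv_mul_cancel]
  have h1 := hT V Subtype.val ht (Nat.card_le_card_of_injective _ ht) (th M a)⁻¹
  rw [conj_split a h, pc_conj_eq_one _ _ _ _ _ _ hkθ, inv_mul_cancel] at h1
  obtain ⟨b, hb⟩ : ∃ b, artMap Subtype.val (pull_lab M _ ht) b = a⁻¹ * h * a := by
    have h2 : ∀ x ∈ Subgroup.closure (ag M '' V),
        ∃ b, artMap Subtype.val (pull_lab M _ ht) b = x := by
      intro x hx
      induction hx using Subgroup.closure_induction with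
      | mem x hx =>
        obtain ⟨v, hv, rfl⟩ := hx
        exact ⟨ag _ ⟨v, hv⟩, artMap_ag _ _ _⟩
      | one => exact ⟨1, map_one _⟩
      | mul x z _ _ hx hz =>
        obtain ⟨b, rfl⟩ := hx
        obtain ⟨c, rfl⟩ := hz
        exact ⟨b * c, map_mul _ _ _⟩
      | inv x _ hx =>
        obtain ⟨b, rfl⟩ := hx
        exact ⟨b⁻¹, map_inv _ _⟩
    exact h2 _ hk
  rw [← hb] at h1
  have h3 : b = 1 := by
    rw [← h1]
    exact (coc_self M.toCoxeterSystem ht (pull_lab M _ ht) (Subgroup.one_mem _) b).symm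
  rw [h3, map_one] at hb
  rw [conj_split a h, ← hb, mul_one, mul_inv_cancel]

/-- Reindexing. -/
theorem pc_reindex {C D : Type} [Finite C] (e : D ≃ C) (t : C → B) (ht : Function.Injective t)
    (w : M.Group) (h : Art M) :
    pc M t ht w h = 1 ↔ pc M (t ∘ e) (ht.comp e.injective) w h = 1 := by
  have hfin := Fintype.ofFinite C
  have hh : h ∈ Subgroup.closure (ag M '' Set.univ) := by
    rw [Set.image_univ]
    have : Subgroup.closure (Set.range (ag M)) = ⊤ := PresentedGroup.closure_range_of _
    rw [this]; trivial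
  have hjN : ∀ x x', (pullM M (t ∘ e) (ht.comp e.injective)) x x' =
      (pullM M t ht) (e x) (e x') := fun _ _ => rfl
  have key := coc_conj (cs := M.toCoxeterSystem) (N := pullM M t ht)
    (N' := pullM M (t ∘ e) (ht.comp e.injective))
    (j := e) (d := 1) ht
    e.injective (pull_lab M t ht) (ht.comp e.injective) (pull_lab M _ _) hjN
    (fun c => one_asc _ _) (fun c => by rw [mul_one, one_mul]; rfl) ⊤ (fun _ => trivial)
    (fun c hc => absurd (e.surjective c) hc) Set.univ (fun _ _ => trivial) hh (y := w) trivial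
  rw [one_mul] at key
  unfold pc
  rw [key]
  have hinj := artMap_injective (pullM M t ht).toCoxeterSystem e.injective hjN
  constructor
  · intro h1
    exact hinj (by rw [h1, map_one])
  · intro h1
    rw [h1, map_one]

/-- The pure part embeds in a finite product of spherical standard parabolic subgroups. -/
theorem embed {H : Subgroup (Art M)} (hH : ES M H) :
    ∃ (ι : Type) (_ : Finite ι) (X : ι → Set B), Nat.card ι ≤ nB M ∧ (∀ i, Sph M (X i)) ∧
      ∃ f : ↥(th M).ker →* (∀ i, ↥(Subgroup.closure (ag M '' X i))),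
        ∀ h : ↥(th M).ker, (h : Art M) ∈ H → f h = 1 → (h : Art M) = 1 := by
  classical
  have hfin : ∀ r, Finite ↥(NN M H r) := fun r => NN_finite hH r
  have hrep : ∀ (r : ℕ) (S : ↥(NN M H r)), ∃ (t : Fin (r + 1) → B) (ht : Function.Injective t)
      (w : M.Group), S.1 = (kerc M t ht w).subgroupOf (Kr M H r) := fun r S => S.2.2
  choose t ht w hS using hrep
  let X : (Σ r : Fin (Nat.card B), ↥(NN M H r.1)) → Set B := fun i => Set.range (t i.1.1 i.2)
  have hX : ∀ i, Sph M (X i) := by
    intro i
    apply NN_sph hH (ht i.1.1 i.2) (w := w i.1.1 i.2)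
    rw [← hS]
    exact i.2.2.1
  have hcard : Nat.card (Σ r : Fin (Nat.card B), ↥(NN M H r.1)) ≤ nB M := by
    rw [Nat.card_sigma, nB]
    exact Finset.sum_le_sum (fun r _ => NN_ncard hH r)
  let F : ∀ i, ↥(th M).ker →* ↥(Subgroup.closure (ag M '' X i)) := fun i =>
    rho' M (t i.1.1 i.2) (ht i.1.1 i.2) (w i.1.1 i.2)
  let G : ↥(th M).ker →* (∀ i, ↥(Subgroup.closure (ag M '' X i))) :=
    { toFun := fun h i => F i h
      map_one' := by
        funext i
        rw [map_one]; rfl
      map_mul' := by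
        intro a b
        funext i
        rw [map_mul]; rfl }
  refine ⟨_, inferInstance, X, hcard, hX, G, ?_⟩
  intro h hhH hh
  have hh' : ∀ (r : ℕ) (hr : r < Nat.card B) (S : ↥(NN M H r)),
      pc M (t r S) (ht r S) (w r S) (h : Art M) = 1 := by
    intro r hr S
    have h1 := congrFun hh ⟨⟨r, hr⟩, S⟩
    have h2 : rho' M (t r S) (ht r S) (w r S) h = 1 := h1
    exact (rho'_eq_one M _ _ _ _).1 h2
  have hθ : th M (h : Art M) = 1 := h.2
  have key : ∀ r, r ≤ Nat.card B → Triv M r (h : Art M) := by
    intro r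
    induction r with
    | zero => intro _; exact triv_zero _
    | succ r ih =>
      intro hr
      have hT := ih (by omega)
      intro C t' ht' hC w'
      by_cases hC' : Nat.card C ≤ r
      · exact hT C t' ht' hC' w'
      have hC2 : Nat.card C = r + 1 := by omega
      have hfinC : Finite C := Finite.of_injective t' ht'
      have e : Fin (r + 1) ≃ C := (finCongr hC2.symm).trans (Finite.equivFin C).symm
      rw [pc_reindex e]
      have hmem : (h : Art M) ∈ Kr M H r := ⟨hhH, hθ, hT⟩
      set S := (kerc M (t' ∘ e) (ht'.comp e.injective) w').subgroupOf (Kr M H r) with hSdef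
      have hin : (⟨(h : Art M), hmem⟩ : ↥(Kr M H r)) ∈ S := by
        by_cases hS1 : S = ⊤
        · rw [hS1]; trivial
        · have hSN : S ∈ NN M H r := ⟨hS1, _, _, _, rfl⟩
          have h3 := hh' r (by omega) ⟨S, hSN⟩
          have h4 := hS r ⟨S, hSN⟩
          have h5 : S = (kerc M (t r ⟨S, hSN⟩) (ht r ⟨S, hSN⟩) (w r ⟨S, hSN⟩)).subgroupOf
              (Kr M H r) := h4
          rw [h5, Subgroup.mem_subgroupOf]
          exact ⟨hθ, h3⟩
      rw [hSdef, Subgroup.mem_subgroupOf] at hin
      exact hin.2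
  exact triv_full hH hhH hθ (key _ le_rfl)

end

end Pool.Agent.ArtSph
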