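import Pool.Agent.ArtSph.Embed

/-!
Coxeter groups are residually finite; the pure part of an elementwise spherical subgroup has
finite index.
-/

set_option autoImplicit false

namespace Pool.Agent.ArtSph

open CoxeterSystem Pool.Agent.FBuild

section

variable {B W : Type} [Group W] {M : CoxeterMatrix B}

/-- The coefficient ring. -/
noncomputable def RR (M : CoxeterMatrix B) : Subalgebra ℤ ℝ :=
  Algebra.adjoin ℤ (Set.range fun p : B × B => kM M p.1 p.2)

theorem kM_mem (i j : B) : kM M i j ∈ RR M := Algebra.subset_adjoin ⟨(i, j), rfl⟩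

theorem kM_integral (i j : B) : IsIntegral ℤ (kM M i j) := by
  rw [kM]
  split_ifs with h
  · have h1 : (2 : ℝ) = algebraMap ℤ ℝ 2 := by simp
    rw [h1]
    exact isIntegral_algebraMap
  · have h1 := Real.isIntegral_two_mul_cos_rat_mul_pi (1 / (M i j : ℚ))
    have h2 : ((1 / (M i j : ℚ) : ℚ) : ℝ) * Real.pi = Real.pi / M i j := by
      push_cast
      ring
    rw [h2] at h1
    exact h1

instance RR_finite [Finite B] : Module.Finite ℤ ↥(RR M) := by
  have h : (Subalgebra.toSubmodule (RR M)).FG := by
    apply fg_adjoin_of_finite (Set.finite_range _)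
    rintro _ ⟨p, rfl⟩
    exact kM_integral _ _
  exact Module.Finite.iff_fg.2 h

variable (cs : CoxeterSystem M W)

theorem game_mem (w : W) (v : B → ℝ) (hv : ∀ i, v i ∈ RR M) (i : B) : game cs w v i ∈ RR M := by
  induction w using cs.simple_induction_left generalizing i with
  | one => rw [map_one]; exact hv i
  | mul_simple_left x s ih =>
    rw [game_mul_apply, game_simple, act_apply]
    exact (RR M).add_mem (ih i) ((RR M).mul_mem (ih s) (kM_mem s i))

/-- The action on the integral functions. -/
noncomputable def lam : W →* Module.End ℤ (B → ↥(RR M)) where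
  toFun w :=
    { toFun := fun v i => ⟨game cs w (fun j => (v j : ℝ)) i, game_mem cs w _ (fun j => (v j).2) i⟩
      map_add' := by
        intro v v'
        funext i
        apply Subtype.ext
        have h1 : (fun j => ((v + v') j : ℝ)) = (fun j => (v j : ℝ)) + fun j => (v' j : ℝ) := rfl
        show game cs w (fun j => ((v + v') j : ℝ)) i = _
        rw [h1, map_add]
        rfl
      map_smul' := by
        intro a v
        funext i
        apply Subtype.ext
        have h1 : (fun j => ((a • v) j : ℝ)) = a • fun j => (v j : ℝ) := rfl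
        show game cs w (fun j => ((a • v) j : ℝ)) i = _
        rw [h1, map_zsmul]
        rfl }
  map_one' := by
    apply LinearMap.ext
    intro v
    funext i
    apply Subtype.ext
    show game cs 1 (fun j => (v j : ℝ)) i = _
    rw [map_one]
    rfl
  map_mul' := by
    intro w w'
    apply LinearMap.ext
    intro v
    funext i
    apply Subtype.ext
    show game cs (w * w') (fun j => (v j : ℝ)) i = _
    rw [game_mul_apply]
    rfl

theorem lam_one_ne {e : W} (he : e ≠ 1) : lam cs e (fun _ => 1) ≠ fun _ => 1 := by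
  intro h
  apply he
  apply eq_one_of_pos cs (fun _ => (1 : ℝ)) (fun _ => one_pos)
  intro i
  have h1 := congrArg (fun v : B → ↥(RR M) => ((v i : ↥(RR M)) : ℝ)) h
  have h2 : game cs e (fun _ => (1 : ℝ)) i = 1 := h1
  rw [h2]
  exact one_pos

include cs in
/-- Residual finiteness. -/
theorem resfin [Finite B] {e : W} (he : e ≠ 1) :
    ∃ (U : Type) (_ : Group U) (_ : Finite U) (ψ : W →* U), ψ e ≠ 1 := by
  classical
  set L := B → ↥(RR M) with hL
  set x : L := lam cs e (fun _ => 1) - (fun _ => 1) with hx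
  have hx0 : x ≠ 0 := sub_ne_zero.2 (lam_one_ne cs he)
  have hfree : Module.Free ℤ L := inferInstance
  obtain ⟨m, hm0, hm⟩ : ∃ m : ℤ, m ≠ 0 ∧ ∀ y : L, x ≠ m • y := by
    set b := Module.Free.chooseBasis ℤ L
    obtain ⟨k, hk⟩ : ∃ k, b.repr x k ≠ 0 := by
      by_contra hcon
      push Not at hcon
      apply hx0
      apply b.repr.injective
      rw [map_zero]
      ext k
      exact hcon k
    refine ⟨|b.repr x k| + 1, by positivity, fun y hy => ?_⟩
    have h1 : b.repr x k = (|b.repr x k| + 1) * b.repr y k := by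
      conv_lhs => rw [hy]
      rw [map_smul, Finsupp.smul_apply, smul_eq_mul]
    have h2 : |b.repr x k| = (|b.repr x k| + 1) * |b.repr y k| := by
      conv_lhs => rw [h1]
      rw [abs_mul, abs_of_nonneg (by positivity)]
    have h3 : 0 < |b.repr x k| := abs_pos.2 hk
    have h4 : |b.repr y k| ≠ 0 := by
      intro h4
      rw [h4, mul_zero] at h2
      omega
    have h5 : 1 ≤ |b.repr y k| := by
      have := abs_nonneg (b.repr y k)
      omega
    nlinarith
  set S : Submodule ℤ L := LinearMap.range (m • (LinearMap.id : L →ₗ[ℤ] L)) with hS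
  have hmem : ∀ y : L, m • y ∈ S := fun y => ⟨y, rfl⟩
  have hmem' : ∀ y ∈ S, ∃ z : L, y = m • z := by
    rintro y ⟨z, hz⟩
    exact ⟨z, hz.symm⟩
  have hmap : ∀ f : Module.End ℤ L, S ≤ S.comap f := by
    intro f y hy
    obtain ⟨z, rfl⟩ := hmem' y hy
    rw [Submodule.mem_comap, map_smul]
    exact hmem _
  have hfin : Finite (L ⧸ S) := by
    apply Module.finite_of_fg_torsion
    intro y
    refine ⟨⟨m, mem_nonZeroDivisors_of_ne_zero hm0⟩, ?_⟩
    obtain ⟨y, rfl⟩ := S.mkQ_surjective y
    show m • S.mkQ y = 0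
    rw [← map_smul]
    exact (Submodule.Quotient.mk_eq_zero S).2 (hmem y)
  have hfin2 : Finite (Module.End ℤ (L ⧸ S)) := DFunLike.finite _
  set φ : W →* Module.End ℤ (L ⧸ S) :=
    { toFun := fun w => S.mapQ S (lam cs w) (hmap _)
      map_one' := by
        apply LinearMap.ext
        intro y
        obtain ⟨y, rfl⟩ := S.mkQ_surjective y
        rw [Submodule.mkQ_apply, Submodule.mapQ_apply, map_one]
        rfl
      map_mul' := by
        intro w w'
        apply LinearMap.ext
        intro y
        obtain ⟨y, rfl⟩ := S.mkQ_surjective y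
        rw [Submodule.mkQ_apply, Submodule.mapQ_apply, map_mul]
        rfl } with hφ
  refine ⟨(Module.End ℤ (L ⧸ S))ˣ, inferInstance, inferInstance, φ.toHomUnits, ?_⟩
  intro h
  have h1 : φ e = 1 := by
    have := congrArg (fun u : (Module.End ℤ (L ⧸ S))ˣ => (u : Module.End ℤ (L ⧸ S))) h
    exact this
  have h2 : φ e (S.mkQ (fun _ => 1)) = S.mkQ (fun _ => 1) := by rw [h1]; rfl
  have h3 : S.mkQ (lam cs e (fun _ => 1)) = S.mkQ (fun _ => 1) := h2
  have h4 : S.mkQ x = 0 := by rw [hx, map_sub, h3, sub_self]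
  obtain ⟨z, hz⟩ := hmem' x ((Submodule.Quotient.mk_eq_zero S).1 h4)
  exact hm z hz

include cs in
/-- Finitely many nontrivial elements are detected in a finite quotient. -/
theorem resfin_set [Finite B] {E : Set W} (hE : E.Finite) (h1 : 1 ∉ E) :
    ∃ (U : Type) (_ : Group U) (_ : Finite U) (ψ : W →* U), ∀ e ∈ E, ψ e ≠ 1 := by
  have hex : ∀ e : E, ∃ (U : Type) (_ : Group U) (_ : Finite U) (ψ : W →* U), ψ e ≠ 1 := by
    rintro ⟨e, he⟩
    exact resfin cs (fun h => h1 (h ▸ he))
  choose U hU hF ψ hψ using hex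
  have := hE.to_subtype
  refine ⟨∀ e, U e, inferInstance, inferInstance, MonoidHom.pi ψ, ?_⟩
  intro e he h
  exact hψ ⟨e, he⟩ (congrFun h ⟨e, he⟩)

end

section

variable {B : Type} [Fintype B] {M : CoxeterMatrix B}

omit [Fintype B] in
theorem th_mem {V : Set B} {a : Art M} (ha : a ∈ Subgroup.closure (ag M '' V)) :
    th M a ∈ Subgroup.closure (M.simple '' V) := by
  induction ha using Subgroup.closure_induction with
  | mem x hx =>
    obtain ⟨v, hv, rfl⟩ := hx
    have : th M (ag M v) = M.simple v := theta_ag _ _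
    rw [this]
    exact Subgroup.subset_closure ⟨v, hv, rfl⟩
  | one => rw [map_one]; exact Subgroup.one_mem _
  | mul x z _ _ hx hz => rw [map_mul]; exact Subgroup.mul_mem _ hx hz
  | inv x _ hx => rw [map_inv]; exact Subgroup.inv_mem _ hx

/-- The pure part of an elementwise spherical subgroup has finite index. -/
theorem pure_relIndex (M : CoxeterMatrix B) : ∃ n : ℕ, ∀ H : Subgroup (Art M), ES M H →
    (th M).ker.relIndex H ≠ 0 ∧ (th M).ker.relIndex H ≤ n := by
  classical
  set E : Set M.Group := {w | w ≠ 1 ∧ ∃ V : Set B, Sph M V ∧ w ∈ Subgroup.closure (M.simple '' V)}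
    with hE
  have hfin : E.Finite := by
    have h1 : (⋃ V ∈ {V : Set B | Sph M V},
        ((Subgroup.closure (M.simple '' V) : Subgroup M.Group) : Set M.Group)).Finite := by
      apply Set.Finite.biUnion (Set.toFinite _)
      intro V hV
      exact hV
    apply h1.subset
    rintro w ⟨-, V, hV, hw⟩
    simp only [Set.mem_iUnion]
    exact ⟨V, hV, hw⟩
  obtain ⟨U, hU, hUf, ψ, hψ⟩ := resfin_set M.toCoxeterSystem hfin (fun h => h.1 rfl)
  set f : Art M →* U := ψ.comp (th M) with hf
  have hfi : f.ker.FiniteIndex := Subgroup.finiteIndex_ker f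
  refine ⟨f.ker.index, fun H hH => ?_⟩
  have hle : f.ker ⊓ H = (th M).ker ⊓ H := by
    apply le_antisymm
    · rintro h ⟨h1, h2⟩
      refine ⟨?_, h2⟩
      obtain ⟨V, hV, g, hg⟩ := hH h h2
      by_contra hne
      have hk : th M (g⁻¹ * h * g) ∈ Subgroup.closure (M.simple '' V) := th_mem hg
      have hk1 : th M (g⁻¹ * h * g) ≠ 1 := by
        intro h3
        apply hne
        show h ∈ (th M).ker
        rw [MonoidHom.mem_ker]
        rw [map_mul, map_mul, map_inv] at h3
        have h4 : th M h = th M g * ((th M g)⁻¹ * th M h * th M g) * (th M g)⁻¹ := by group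
        rw [h4, h3]
        group
      apply hψ _ ⟨hk1, V, hV, hk⟩
      have h5 : f h = 1 := h1
      have h6 : ψ (th M (g⁻¹ * h * g)) = f (g⁻¹ * h * g) := rfl
      rw [h6, map_mul, map_mul, h5, mul_one, ← map_mul, inv_mul_cancel, map_one]
    · rintro h ⟨h1, h2⟩
      refine ⟨?_, h2⟩
      have h3 : th M h = 1 := h1
      show ψ (th M h) = 1
      rw [h3, map_one]
  have h3 : (th M).ker.relIndex H = f.ker.relIndex H := by
    rw [← Subgroup.inf_relIndex_right, ← hle, Subgroup.inf_relIndex_right]
  have h2 : (f.ker.subgroupOf H).FiniteIndex := inferInstance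
  rw [h3]
  refine ⟨h2.index_ne_zero, ?_⟩
  apply Nat.le_of_dvd (Nat.pos_of_ne_zero hfi.index_ne_zero)
  exact Subgroup.relIndex_dvd_index_of_normal _ _

end

end Pool.Agent.ArtSph
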