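import Pool.Agent.ArtSph.Wall

/-!
Elementwise spherical subgroups with a normaliser of finite index.
-/

set_option autoImplicit false

namespace Pool.Agent.ArtSph

open CoxeterSystem Pool.Agent.FBuild

section central

variable {B W : Type} [Fintype B] [Group W] {M : CoxeterMatrix B} (cs : CoxeterSystem M W)

theorem inv_root (w : W) (x : B) (ω : List B) (h0 : Asc cs w x) (n : ℕ) (hn : n ≤ ω.length) :
    Asc cs (w * cs.wordProd (ω.take n)) x ∨ ∃ i : Fin ω.length,
      ∀ p : B → ℝ, game cs w p x = game cs (cs.wordProd (ω.take i))⁻¹ p (ω.get i) := by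
  induction n with
  | zero => left; simpa using h0
  | succ n ih =>
    rcases ih (by omega) with h | h
    · by_cases h2 : Asc cs (w * cs.wordProd (ω.take (n + 1))) x
      · exact Or.inl h2
      · right
        refine ⟨⟨n, by omega⟩, ?_⟩
        have h3 : ω.take (n + 1) = ω.take n ++ [ω.get ⟨n, by omega⟩] := by
          rw [List.take_succ_eq_append_getElem (by omega)]; rfl
        rw [h3, cs.wordProd_append, ← mul_assoc, cs.wordProd_singleton] at h2
        have h4 := deodhar cs h h2
        obtain ⟨b, hb, h5⟩ := prop_of_eq cs h h4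
        rcases sq_of_prop h5 with h6 | h6
        · intro p
          have h7 := h5 (game cs (cs.wordProd (ω.take n))⁻¹ p)
          rw [← game_mul_apply, mul_inv_cancel_right, h6, one_mul] at h7
          exact h7
        · linarith
    · exact Or.inr h

/-- A central element which negates a coordinate gives a finite orbit. -/
theorem DD_of_central {z : W} (hz : ∀ w, z * w = w * z) {x : B}
    (hx : ∀ p : B → ℝ, game cs z p x = - p x) : (DD cs x).FiniteIndex := by
  apply DD_of_finite
  obtain ⟨ω, hω⟩ := cs.wordProd_surjective z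
  set F : Set ((B → ℝ) → ℝ) := Set.range (fun i : Fin ω.length => fun p : B → ℝ =>
    game cs (cs.wordProd (ω.take i))⁻¹ p (ω.get i)) with hF
  have key : ∀ w, Asc cs w x → (fun p : B → ℝ => game cs w p x) ∈ F := by
    intro w hw
    rcases inv_root cs w x ω hw ω.length le_rfl with h | ⟨i, hi⟩
    · exfalso
      rw [List.take_length, hω, ← hz] at h
      have h1 := asc_pos cs h (fun _ => 1) (fun _ => one_pos)
      have h2 := asc_pos cs hw (fun _ => 1) (fun _ => one_pos)
      rw [game_mul_apply, hx] at h1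
      linarith
    · exact ⟨i, by funext p; exact (hi p).symm⟩
  have hFf : F.Finite := Set.finite_range _
  apply (hFf.union (hFf.image fun f => fun p => - f p)).subset
  rintro _ ⟨w, rfl⟩
  by_cases hw : Asc cs w x
  · exact Or.inl (key w hw)
  · right
    refine ⟨fun p : B → ℝ => game cs (z * w) p x, key _ ?_, ?_⟩
    · apply asc_of_pos cs (fun _ => 1) (fun _ => one_pos)
      rw [game_mul_apply, hx]
      have := not_asc_neg cs hw (fun _ => 1) (fun _ => one_pos)
      linarith
    · funext p
      show - game cs (z * w) p x = game cs w p x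
      rw [game_mul_apply, hx, neg_neg]

end central

section

variable {B : Type} [Fintype B] {M : CoxeterMatrix B}

omit [Fintype B] in
theorem th_surj : Function.Surjective (th M) := by
  intro w
  induction w using M.toCoxeterSystem.simple_induction_left with
  | one => exact ⟨1, map_one _⟩
  | mul_simple_left x s ih =>
    obtain ⟨a, rfl⟩ := ih
    exact ⟨ag M s * a, by rw [map_mul]; congr 1⟩

/-- The pure part is trivial. -/
theorem pure_trivial {H L : Subgroup (Art M)} (hH : ES M H) (hL : L.FiniteIndex)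
    (hLH : ∀ g ∈ L, ∀ h ∈ H, g * h * g⁻¹ ∈ H)
    (hD : ∀ x, ¬ (DD M.toCoxeterSystem x).FiniteIndex) {h : Art M} (hh : h ∈ H)
    (hθ : th M h = 1) : h = 1 := by
  classical
  by_contra hne
  have hex : ∃ r, ∃ h ∈ H, th M h = 1 ∧ ¬ Triv M r h :=
    ⟨Nat.card B, h, hh, hθ, fun hT => hne (triv_full hH hh hθ hT)⟩
  obtain ⟨h1, hh1, hθ1, hT1⟩ := Nat.find_spec hex
  obtain ⟨r, hr⟩ : ∃ r, Nat.find hex = r + 1 := by
    apply Nat.exists_eq_succ_of_ne_zero
    intro h0
    rw [h0] at hT1
    exact hT1 (triv_zero _)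
  rw [hr] at hT1
  have hall : ∀ h ∈ H, th M h = 1 → Triv M r h := by
    intro h hh hθ
    by_contra hcon
    exact Nat.find_min hex (by omega : r < Nat.find hex) ⟨h, hh, hθ, hcon⟩
  unfold Triv at hT1
  push Not at hT1
  obtain ⟨C, t0, ht0, hC, w, hw0⟩ := hT1
  have hCf : Finite C := Finite.of_injective t0 ht0
  have hC2 : Nat.card C = r + 1 := by
    by_contra hcon
    exact hw0 (hall h1 hh1 hθ1 C t0 ht0 (by omega) w)
  have e : Fin (r + 1) ≃ C := (finCongr hC2.symm).trans (Finite.equivFin C).symm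
  have hw : pc M (t0 ∘ e) (ht0.comp e.injective) w h1 ≠ 1 := fun h2 => hw0 ((pc_reindex e t0 ht0 w h1).2 h2)
  set t := t0 ∘ e with ht_def
  have ht : Function.Injective t := ht0.comp e.injective
  set x := t 0 with hx
  apply hD x
  apply DD_of_class
  -- the orbit under `L`
  have hdata : ∀ S : Subgroup ↥(Kr M H r), S ≠ ⊤ → ∃ P : Set M.Group, P.Finite ∧
      ∀ w', S = (kerc M t ht w').subgroupOf (Kr M H r) → w'⁻¹ * M.simple x * w' ∈ P := by
    intro S hS
    obtain ⟨k, hk⟩ : ∃ k, k ∉ S := by
      by_contra hcon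
      push Not at hcon
      exact hS ((Subgroup.eq_top_iff' _).2 hcon)
    obtain ⟨V, hV, a, hka⟩ := hH k.1 k.2.1
    refine ⟨(fun v => th M a * v * (th M a)⁻¹) '' ((Subgroup.closure (M.simple '' V) :
      Subgroup M.Group) : Set M.Group), Set.Finite.image _ hV, ?_⟩
    intro w' hw'
    have hsplit : (k : Art M) = a * (a⁻¹ * (k : Art M) * a) * a⁻¹ := conj_split a k
    have hkθ : th M (a⁻¹ * (k : Art M) * a) = 1 := by
      rw [map_mul, map_mul, k.2.2.1, map_inv, mul_one, inv_mul_cancel]
    have hne1 : pc M t ht w' (a * (a⁻¹ * (k : Art M) * a) * a⁻¹) ≠ 1 := by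
      intro h1
      apply hk
      rw [hw', Subgroup.mem_subgroupOf]
      exact ⟨k.2.2.1, by rw [hsplit]; exact h1⟩
    have hT : Triv M r (a * (a⁻¹ * (k : Art M) * a) * a⁻¹) := by rw [← hsplit]; exact k.2.2.2
    have h2 := wall M t ht (by simp) w' hka hkθ hT hne1 0
    refine ⟨_, h2, ?_⟩
    rw [hx]
    group
  choose! P hPf hP using hdata
  set F : Set M.Group := ⋃ S ∈ NN M H r, P S with hF
  have hFf : F.Finite := by
    apply Set.Finite.biUnion (NN_finite hH r)
    intro S hS
    exact hPf S hS.1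
  have hF2 : ∀ g ∈ L, (w * (th M g)⁻¹)⁻¹ * M.simple x * (w * (th M g)⁻¹) ∈ F := by
    intro g hg
    have hmem : g * h1 * g⁻¹ ∈ H := hLH g hg h1 hh1
    have hθ2 : th M (g * h1 * g⁻¹) = 1 := by
      rw [map_mul, map_mul, hθ1, mul_one, map_inv, mul_inv_cancel]
    have hK : g * h1 * g⁻¹ ∈ Kr M H r := ⟨hmem, hθ2, hall _ hmem hθ2⟩
    have hS1 : (kerc M t ht (w * (th M g)⁻¹)).subgroupOf (Kr M H r) ≠ ⊤ := by
      intro h2
      have h3 : (⟨_, hK⟩ : ↥(Kr M H r)) ∈ (kerc M t ht (w * (th M g)⁻¹)).subgroupOf (Kr M H r) := by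
        rw [h2]; trivial
      rw [Subgroup.mem_subgroupOf] at h3
      have h4 := (pc_conj_eq_one M t ht _ g h1 hθ1).1 h3.2
      rw [inv_mul_cancel_right] at h4
      exact hw h4
    rw [hF]
    simp only [Set.mem_iUnion]
    exact ⟨_, ⟨hS1, t, ht, _, rfl⟩, hP _ hS1 _ rfl⟩
  -- all conjugates
  have hΛ : (L.map (th M)).FiniteIndex := by
    refine ⟨fun h0 => ?_⟩
    have h2 := Subgroup.index_map_dvd L th_surj
    rw [h0, zero_dvd_iff] at h2
    exact hL.index_ne_zero h2
  have hq : Finite (M.Group ⧸ L.map (th M)) := inferInstance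
  have hfin2 : ((fun q : (M.Group ⧸ L.map (th M)) × M.Group => q.1.out * q.2 * (q.1.out)⁻¹) ''
      (Set.univ ×ˢ F)).Finite := (Set.finite_univ.prod hFf).image _
  apply hfin2.subset
  rintro _ ⟨w', rfl⟩
  set v := w⁻¹ * w' with hv
  set q : M.Group ⧸ L.map (th M) := QuotientGroup.mk v⁻¹ with hq'
  have h2 : q.out⁻¹ * v⁻¹ ∈ L.map (th M) := by
    rw [← QuotientGroup.eq, QuotientGroup.out_eq']
  obtain ⟨g, hg, hgv⟩ := h2
  refine ⟨(q, _), ⟨Set.mem_univ _, hF2 g hg⟩, ?_⟩
  have h3 : w' = w * (th M g)⁻¹ * (q.out)⁻¹ := by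
    rw [hgv, mul_inv_rev, inv_inv, inv_inv]
    have : w * (v * q.out) * q.out⁻¹ = w * v := by group
    rw [this, hv]; group
  show q.out * ((w * (th M g)⁻¹)⁻¹ * M.simple x * (w * (th M g)⁻¹)) * (q.out)⁻¹ =
    w'⁻¹ * M.simple x * w'
  rw [h3]
  group

omit [Fintype B] in
theorem pow_ne (b : B) (n : ℕ) (hn : 0 < n) : (ag M b) ^ n ≠ 1 := by
  intro h
  have h1 := congrArg (artLift (M := M) (fun _ => Multiplicative.ofAdd (1 : ℤ))
    (fun _ _ _ => rfl)) h
  rw [map_pow, artLift_ag, MonoidHom.map_one] at h1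
  have h2 : Multiplicative.ofAdd ((n : ℤ)) = 1 := by
    rw [← h1, ← ofAdd_nsmul]
    simp
  have h3 : (n : ℤ) = 0 := h2
  omega

/-- An elementwise spherical subgroup with a normaliser of finite index is trivial, if no
coordinate has a fixer of finite index. -/
theorem norm_trivial {H L : Subgroup (Art M)} (hH : ES M H) (hL : L.FiniteIndex)
    (hLH : ∀ g ∈ L, ∀ h ∈ H, g * h * g⁻¹ ∈ H)
    (hD : ∀ x, ¬ (DD M.toCoxeterSystem x).FiniteIndex) {h : Art M} (hh : h ∈ H) : h = 1 := by
  classical
  have hcomm : ∀ x, M.simple x * th M h = th M h * M.simple x := by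
    intro x
    obtain ⟨n, hn, -, hgL⟩ := Subgroup.exists_pow_mem_of_index_ne_zero hL.index_ne_zero (ag M x ^ 2)
    set g := (ag M x ^ 2) ^ n with hg
    have hθx : th M (ag M x) = M.simple x := theta_ag _ _
    have hθg : th M g = 1 := by
      rw [hg, map_pow, map_pow, hθx, pow_two]
      have : M.simple x * M.simple x = 1 := M.toCoxeterSystem.simple_mul_simple_self x
      rw [this, one_pow]
    have h1 : h * (g * h⁻¹ * g⁻¹) ∈ H := H.mul_mem hh (hLH g hgL _ (H.inv_mem hh))
    have h2 : th M (h * (g * h⁻¹ * g⁻¹)) = 1 := by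
      rw [map_mul, map_mul, map_mul, hθg, map_inv, map_inv, hθg, one_mul, inv_one, mul_one,
        mul_inv_cancel]
    have h3 := pure_trivial hH hL hLH hD h1 h2
    have h4 : h * g * h⁻¹ = g := by
      have : h * g * h⁻¹ = h * (g * h⁻¹ * g⁻¹) * g := by group
      rw [this, h3, one_mul]
    have ht : Function.Injective (fun _ : Unit => x) := fun _ _ _ => rfl
    have hgc : g ∈ Subgroup.closure (ag M '' {x}) := by
      apply Subgroup.pow_mem
      apply Subgroup.pow_mem
      exact Subgroup.subset_closure ⟨x, rfl, rfl⟩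
    have hpc : pc M (fun _ : Unit => x) ht 1 g ≠ 1 := by
      have h5 : g = artMap (fun _ : Unit => x) (pull_lab M _ ht)
          ((ag (pullM M (fun _ : Unit => x) ht) () ^ 2) ^ n) := by
        rw [map_pow, map_pow, artMap_ag]
      have h6 : pc M (fun _ : Unit => x) ht 1 g =
          (ag (pullM M (fun _ : Unit => x) ht) () ^ 2) ^ n := by
        rw [h5]
        exact coc_self M.toCoxeterSystem ht (pull_lab M _ ht) (Subgroup.one_mem _) _
      rw [h6, ← pow_mul]
      exact pow_ne _ _ (by omega)
    have h7 := wall M (fun _ : Unit => x) ht (r := 0) (by simp) 1 (a := h) hgc hθg (triv_zero _)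
      (by rw [h4]; exact hpc) ()
    rw [inv_one, one_mul, mul_one, Set.image_singleton, Subgroup.mem_closure_singleton] at h7
    obtain ⟨m, hm⟩ := h7
    have hs : M.simple x * M.simple x = 1 := M.toCoxeterSystem.simple_mul_simple_self x
    have h8 : M.simple x ^ m = 1 ∨ M.simple x ^ m = M.simple x := by
      obtain ⟨k, hk | hk⟩ := m.even_or_odd'
      · left; rw [hk, zpow_mul, zpow_two, hs, one_zpow]
      · right; rw [hk, zpow_add, zpow_mul, zpow_two, hs, one_zpow, one_mul, zpow_one]
    rw [hm] at h8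
    rcases h8 with h8 | h8
    · exfalso
      have h9 : M.simple x = 1 := by
        have : M.simple x = th M h * ((th M h)⁻¹ * M.simple x * th M h) * (th M h)⁻¹ := by group
        rw [this, h8]; group
      have h10 := M.toCoxeterSystem.length_simple x
      have h11 : M.toCoxeterSystem.simple x = 1 := h9
      rw [h11, M.toCoxeterSystem.length_one] at h10
      omega
    · have : M.simple x * th M h = th M h * ((th M h)⁻¹ * M.simple x * th M h) := by group
      rw [this, h8]
  have hcentral : ∀ w, th M h * w = w * th M h := by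
    intro w
    induction w using M.toCoxeterSystem.simple_induction_left with
    | one => rw [mul_one, one_mul]
    | mul_simple_left w s ih =>
      have h1 : M.toCoxeterSystem.simple s * th M h = th M h * M.toCoxeterSystem.simple s :=
        hcomm s
      rw [← mul_assoc, ← h1, mul_assoc, ih, mul_assoc]
  by_cases hall : ∀ x, ∀ p : B → ℝ, game M.toCoxeterSystem (th M h) p x = p x
  · apply pure_trivial hH hL hLH hD hh
    apply eq_one_of_pos M.toCoxeterSystem (fun _ => (1 : ℝ)) (fun _ => one_pos)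
    intro i
    rw [hall]
    exact one_pos
  · push Not at hall
    obtain ⟨x, p, hp⟩ := hall
    exfalso
    rcases sign_of_comm (cs := M.toCoxeterSystem) (hcomm x) with h1 | h1
    · exact hp (h1 p)
    · exact hD x (DD_of_central M.toCoxeterSystem hcentral h1)

end

end Pool.Agent.ArtSph
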