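import Pool.Agent.ArtSph.Wall

/-!
Positive elements of elementwise spherical submonoids.
-/

set_option autoImplicit false

namespace Pool.Agent.ArtSph

open CoxeterSystem Pool.Agent.FBuild

section

variable {B : Type} [Fintype B] {M : CoxeterMatrix B}

/-- The positive element of a word. -/
def posW {B : Type} (M : CoxeterMatrix B) (ω : List B) : Art M := (ω.map (ag M)).prod

omit [Fintype B] in
theorem posW_append (l l' : List B) : posW M (l ++ l') = posW M l * posW M l' := by
  simp [posW]

omit [Fintype B] in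
theorem posW_pow (ω : List B) (n : ℕ) : ∃ ω', posW M ω' = posW M ω ^ n := by
  induction n with
  | zero => exact ⟨[], by simp [posW]⟩
  | succ n ih =>
    obtain ⟨ω', h⟩ := ih
    exact ⟨ω' ++ ω, by rw [posW_append, h, pow_succ]⟩

/-- The exponent sum. -/
noncomputable def expo {C : Type} (N : CoxeterMatrix C) : Art N →* Multiplicative ℤ :=
  artLift (fun _ => Multiplicative.ofAdd (1 : ℤ)) (fun _ _ _ => rfl)

theorem expo_nonneg {C : Type} (t : C → B) (ht : Function.Injective t) (w : M.Group)
    (ω : List B) : 0 ≤ Multiplicative.toAdd (expo _ (pc M t ht w (posW M ω))) := by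
  induction ω generalizing w with
  | nil =>
    have : posW M [] = 1 := rfl
    rw [this]
    have h1 : pc M t ht w 1 = 1 := coc_one _ _ _ _
    rw [h1, map_one]
    exact le_rfl
  | cons i ω ih =>
    have h0 : posW M (i :: ω) = ag M i * posW M ω := by simp [posW]
    have h1 : pc M t ht w (posW M (i :: ω)) =
        step M.toCoxeterSystem t (pullM M t ht) w i * pc M t ht (w * M.simple i) (posW M ω) := by
      rw [h0]
      unfold pc
      rw [coc_mul, coc_ag, theta_ag]
      rfl
    rw [h1, map_mul, toAdd_mul]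
    have h2 : 0 ≤ Multiplicative.toAdd
        (expo _ (step M.toCoxeterSystem t (pullM M t ht) w i)) := by
      rw [step]
      split_ifs with h
      · rw [expo, artLift_ag, toAdd_ofAdd]; norm_num
      · rw [map_one]; exact le_rfl
    have h3 := ih (w * M.simple i)
    omega

theorem pos_cross (l l' : List B) (i : B) :
    pc M (fun _ : Unit => i) (fun _ _ _ => rfl) (th M (posW M l))⁻¹ (posW M (l ++ i :: l')) ≠ 1 := by
  intro h
  have ht : Function.Injective (fun _ : Unit => i) := fun _ _ _ => rfl
  have h0 : posW M (l ++ i :: l') = posW M l * (ag M i * posW M l') := by simp [posW]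
  have h1 : pc M (fun _ : Unit => i) ht (th M (posW M l))⁻¹ (posW M (l ++ i :: l')) =
      pc M (fun _ : Unit => i) ht (th M (posW M l))⁻¹ (posW M l) *
      (step M.toCoxeterSystem (fun _ : Unit => i) (pullM M _ ht) 1 i *
        pc M (fun _ : Unit => i) ht (M.simple i) (posW M l')) := by
    rw [h0]
    unfold pc
    rw [coc_mul, coc_mul, coc_ag, theta_ag]
    have : (th M (posW M l))⁻¹ * theta M.toCoxeterSystem (posW M l) = 1 := inv_mul_cancel _
    rw [this, one_mul]
    rfl
  have h2 : step M.toCoxeterSystem (fun _ : Unit => i) (pullM M (fun _ : Unit => i) ht) 1 i =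
      ag _ () := by
    apply step_eq ht
    have h3 : IsRed M.toCoxeterSystem (fun _ : Unit => i) 1 := fun c => one_asc _ _
    have h4 := red_of_isRed (pull_lab M (fun _ : Unit => i) ht) h3
    rw [h4, mul_one, one_mul]
  rw [h1, h2] at h
  have h5 := congrArg (fun x => Multiplicative.toAdd (expo _ x)) h
  simp only [map_mul, map_one, toAdd_mul, toAdd_one] at h5
  have h6 := expo_nonneg (M := M) (fun _ : Unit => i) ht (th M (posW M l))⁻¹ l
  have h7 := expo_nonneg (M := M) (fun _ : Unit => i) ht (M.simple i) l'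
  have h8 : Multiplicative.toAdd (expo (pullM M (fun _ : Unit => i) ht) (ag _ ())) = 1 := by
    rw [expo, artLift_ag, toAdd_ofAdd]
  rw [h8] at h5
  omega

/-- The support of a positive element of a spherical parabolic subgroup is spherical. -/
theorem pos_sph {ω : List B} {V : Set B} (hV : Sph M V) {a : Art M}
    (hp : a⁻¹ * posW M ω * a ∈ Subgroup.closure (ag M '' V)) : Sph M {i | i ∈ ω} := by
  have hfin : Finite ↥(Subgroup.closure (M.simple '' V)) := hV
  set n := Nat.card ↥(Subgroup.closure (M.simple '' V)) with hn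
  have hn0 : 0 < n := Nat.card_pos
  have hmem : ∀ x ∈ Subgroup.closure (ag M '' V), th M x ∈ Subgroup.closure (M.simple '' V) := by
    intro x hx
    induction hx using Subgroup.closure_induction with
    | mem x hx =>
      obtain ⟨v, hv, rfl⟩ := hx
      have : th M (ag M v) = M.simple v := theta_ag _ _
      rw [this]
      exact Subgroup.subset_closure ⟨v, hv, rfl⟩
    | one => rw [map_one]; exact Subgroup.one_mem _
    | mul x z _ _ hx hz => rw [map_mul]; exact Subgroup.mul_mem _ hx hz
    | inv x _ hx => rw [map_inv]; exact Subgroup.inv_mem _ hx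
  have hpow : th M (a⁻¹ * posW M ω * a) ^ n = 1 := by
    have h1 : (⟨_, hmem _ hp⟩ : ↥(Subgroup.closure (M.simple '' V))) ^ n = 1 := pow_card_eq_one'
    exact congrArg Subtype.val h1
  set k := (a⁻¹ * posW M ω * a) ^ n with hk
  have hkc : k ∈ Subgroup.closure (ag M '' V) := Subgroup.pow_mem _ hp n
  have hkθ : th M k = 1 := by rw [hk, map_pow, hpow]
  have hak : a * k * a⁻¹ = posW M ω ^ n := by
    rw [hk]
    have : a⁻¹ * posW M ω * a = MulAut.conj a⁻¹ (posW M ω) := by
      rw [MulAut.conj_apply, inv_inv]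
    rw [this, ← map_pow, MulAut.conj_apply]
    group
  -- the walls
  have hwall : ∀ l i l', ω = l ++ i :: l' → (th M a)⁻¹ *
      (th M (posW M l) * M.simple i * (th M (posW M l))⁻¹) * th M a ∈
        Subgroup.closure (M.simple '' V) := by
    intro l i l' hω
    obtain ⟨ω', hω'⟩ := posW_pow (M := M) ω (n - 1)
    have h1 : posW M ω ^ n = posW M (l ++ i :: (l' ++ ω')) := by
      have h2 : l ++ i :: (l' ++ ω') = ω ++ ω' := by rw [hω]; simp
      rw [h2, posW_append, hω', ← pow_succ']
      congr 1
      omega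
    have h3 := wall M (fun _ : Unit => i) (fun _ _ _ => rfl) (r := 0) (by simp)
      (th M (posW M l))⁻¹ (a := a) hkc hkθ (triv_zero _)
      (by rw [hak, h1]; exact pos_cross _ _ _) ()
    rw [inv_inv] at h3
    exact h3
  set P : Subgroup M.Group :=
    (Subgroup.closure (M.simple '' V)).map (MulAut.conj (th M a)).toMonoidHom with hP
  have hPmem : ∀ y, (th M a)⁻¹ * y * th M a ∈ Subgroup.closure (M.simple '' V) → y ∈ P := by
    intro y hy
    refine ⟨_, hy, ?_⟩
    show MulAut.conj (th M a) _ = y
    rw [MulAut.conj_apply]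
    group
  have hpre : ∀ l l', ω = l ++ l' → th M (posW M l) ∈ P := by
    intro l
    induction l using List.reverseRecOn with
    | nil => intro l' _; have : posW M [] = 1 := rfl; rw [this, map_one]; exact P.one_mem
    | append_singleton l i ih =>
      intro l' hω
      have h1 := ih (i :: l') (by rw [hω]; simp)
      have h2 := hPmem _ (hwall l i l' (by rw [hω]; simp))
      have h3 : th M (posW M (l ++ [i])) =
          (th M (posW M l) * M.simple i * (th M (posW M l))⁻¹) * th M (posW M l) := by
        have h5 : posW M [i] = ag M i := by simp [posW]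
        have h6 : th M (ag M i) = M.simple i := theta_ag _ _
        rw [posW_append, map_mul, inv_mul_cancel_right, h5, h6]
      rw [h3]
      exact P.mul_mem h2 h1
  have hsim : ∀ i ∈ ω, M.simple i ∈ P := by
    intro i hi
    obtain ⟨l, l', hω⟩ := List.append_of_mem hi
    have h1 := hpre l (i :: l') hω
    have h2 := hPmem _ (hwall l i l' hω)
    have h3 : M.simple i = (th M (posW M l))⁻¹ *
        (th M (posW M l) * M.simple i * (th M (posW M l))⁻¹) * th M (posW M l) := by group
    rw [h3]
    exact P.mul_mem (P.mul_mem (P.inv_mem h1) h2) h1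
  have hPf : (P : Set M.Group).Finite := by
    rw [hP, Subgroup.coe_map]
    exact Set.Finite.image _ hV
  apply hPf.subset
  rw [SetLike.coe_subset_coe, Subgroup.closure_le]
  rintro _ ⟨i, hi, rfl⟩
  exact hsim i hi

omit [Fintype B] in
theorem pos_word {p : Art M} (hp : p ∈ Submonoid.closure (Set.range (ag M))) :
    ∃ ω, p = posW M ω := by
  induction hp using Submonoid.closure_induction with
  | mem x hx => obtain ⟨i, rfl⟩ := hx; exact ⟨[i], by simp [posW]⟩
  | one => exact ⟨[], rfl⟩
  | mul x y _ _ hx hy =>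
    obtain ⟨l, rfl⟩ := hx
    obtain ⟨l', rfl⟩ := hy
    exact ⟨l ++ l', (posW_append _ _).symm⟩

omit [Fintype B] in
theorem posW_mem {ω : List B} {X : Set B} (h : ∀ i ∈ ω, i ∈ X) :
    posW M ω ∈ Subgroup.closure (ag M '' X) := by
  apply Subgroup.list_prod_mem
  intro x hx
  obtain ⟨i, hi, rfl⟩ := List.mem_map.1 hx
  exact Subgroup.subset_closure ⟨i, h i hi, rfl⟩

/-- Elementwise spherical submonoids of positive elements. -/
theorem pos_main (P : Submonoid (Art M)) (hP : P ≤ Submonoid.closure (Set.range (ag M)))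
    (hES : ∀ h ∈ P, ∃ V : Set B, Sph M V ∧ ∃ g, g⁻¹ * h * g ∈ Subgroup.closure (ag M '' V)) :
    ∃ X : Set B, Sph M X ∧ ∀ h ∈ P, h ∈ Subgroup.closure (ag M '' X) := by
  classical
  -- a word with maximal support
  have hex : ∃ n, ∃ ω, posW M ω ∈ P ∧ ω.toFinset.card = n := ⟨_, [], P.one_mem, rfl⟩
  have hbd : ∀ n, (∃ ω, posW M ω ∈ P ∧ ω.toFinset.card = n) → n ≤ Fintype.card B := by
    rintro n ⟨ω, -, rfl⟩
    exact Finset.card_le_univ _
  obtain ⟨ω, hω, hcard⟩ := Nat.findGreatest_spec (P := fun n => ∃ ω, posW M ω ∈ P ∧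
    ω.toFinset.card = n) (Nat.zero_le (Fintype.card B)) ⟨[], P.one_mem, rfl⟩
  have hmax : ∀ ω', posW M ω' ∈ P → ω'.toFinset.card ≤ ω.toFinset.card := by
    intro ω' hω'
    rw [hcard]
    exact Nat.le_findGreatest (hbd _ ⟨ω', hω', rfl⟩) ⟨ω', hω', rfl⟩
  obtain ⟨V, hV, a, ha⟩ := hES _ hω
  refine ⟨{i | i ∈ ω}, pos_sph hV ha, ?_⟩
  intro h hh
  obtain ⟨ω', rfl⟩ := pos_word (hP hh)
  apply posW_mem
  intro i hi
  have h1 : posW M (ω ++ ω') ∈ P := by rw [posW_append]; exact P.mul_mem hω hh
  have h2 := hmax _ h1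
  have h3 : ω.toFinset ⊆ (ω ++ ω').toFinset := by
    intro j hj
    rw [List.mem_toFinset] at hj ⊢
    exact List.mem_append_left _ hj
  have h4 := Finset.eq_of_subset_of_card_le h3 h2
  have h5 : i ∈ (ω ++ ω').toFinset := by
    rw [List.mem_toFinset]
    exact List.mem_append_right _ hi
  rw [← h4, List.mem_toFinset] at h5
  exact h5

end

end Pool.Agent.ArtSph
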