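import Pool.Agent.ArtSph.Norm

/-!
Splitting off the coordinates with a fixer of finite index.
-/

set_option autoImplicit false

namespace Pool.Agent.ArtSph

open CoxeterSystem Pool.Agent.FBuild

section

variable {B : Type} [Fintype B] (M : CoxeterMatrix B)

/-- The coordinates with a fixer of finite index. -/
def TT {B : Type} (M : CoxeterMatrix B) : Set B := {x | (DD M.toCoxeterSystem x).FiniteIndex}

theorem TT_two {x y : B} (hx : x ∈ TT M) (hy : y ∉ TT M) : M x y = 2 := by
  by_contra h
  apply hy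
  have hne : x ≠ y := by rintro rfl; exact hy hx
  have h1 := kM_ge_one x y hne h
  exact DD_adj (x := x) (y := y) (by linarith) hx

theorem kM_zero {x y : B} (hx : x ∈ TT M) (hy : y ∉ TT M) : kM M x y = 0 := by
  rw [kM, TT_two M hx hy]
  simp

/-- The matrix of the other coordinates. -/
abbrev NM {B : Type} (M : CoxeterMatrix B) : CoxeterMatrix {x // x ∉ TT M} :=
  pullM M Subtype.val Subtype.val_injective

open Classical in
/-- The images of the generators. -/
noncomputable def fpsi (i : B) : (NM M).Group :=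
  if h : i ∉ TT M then (NM M).simple ⟨i, h⟩ else 1

theorem fpsi_pos {i : B} (h : i ∉ TT M) : fpsi M i = (NM M).simple ⟨i, h⟩ := by
  rw [fpsi, dif_pos h]

theorem fpsi_neg {i : B} (h : i ∈ TT M) : fpsi M i = 1 := by
  rw [fpsi, dif_neg (not_not.2 h)]

theorem fpsi_lift (i i' : B) : (fpsi M i * fpsi M i') ^ (M i i') = 1 := by
  have hpow : ∀ d d' : {x // x ∉ TT M}, ((NM M).simple d * (NM M).simple d') ^
      (M d.1 d'.1) = 1 := fun d d' => (NM M).toCoxeterSystem.simple_mul_simple_pow d d'
  have hsq : ∀ d : {x // x ∉ TT M}, (NM M).simple d ^ 2 = 1 := fun d => by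
    rw [pow_two]; exact (NM M).toCoxeterSystem.simple_mul_simple_self d
  by_cases h : i ∉ TT M <;> by_cases h' : i' ∉ TT M
  · rw [fpsi_pos M h, fpsi_pos M h']
    exact hpow ⟨i, h⟩ ⟨i', h'⟩
  · rw [fpsi_pos M h, fpsi_neg M (not_not.1 h'), M.symmetric, TT_two M (not_not.1 h') h, mul_one]
    exact hsq _
  · rw [fpsi_neg M (not_not.1 h), fpsi_pos M h', TT_two M (not_not.1 h) h', one_mul]
    exact hsq _
  · rw [fpsi_neg M (not_not.1 h), fpsi_neg M (not_not.1 h'), mul_one, one_pow]

/-- The projection of Coxeter groups. -/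
noncomputable def psi : M.Group →* (NM M).Group :=
  M.toCoxeterSystem.lift ⟨fpsi M, fpsi_lift M⟩

theorem psi_simple (i : B) : psi M (M.toCoxeterSystem.simple i) = fpsi M i :=
  M.toCoxeterSystem.lift_apply_simple (fpsi_lift M) i

theorem psi_pos {i : B} (h : i ∉ TT M) : psi M (M.toCoxeterSystem.simple i) =
    (NM M).toCoxeterSystem.simple ⟨i, h⟩ := by
  rw [psi_simple, fpsi_pos M h]; rfl

theorem psi_neg {i : B} (h : i ∈ TT M) : psi M (M.toCoxeterSystem.simple i) = 1 := by
  rw [psi_simple, fpsi_neg M h]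

theorem game_psi (w : M.Group) (p : B → ℝ) (d : {x // x ∉ TT M}) :
    game M.toCoxeterSystem w p d.1 =
      game (NM M).toCoxeterSystem (psi M w) (fun d => p d.1) d := by
  induction w using M.toCoxeterSystem.simple_induction_left generalizing d with
  | one => rw [map_one, map_one, map_one]; rfl
  | mul_simple_left w s ih =>
    rw [game_mul_apply, game_simple, act_apply, map_mul]
    by_cases hs : s ∈ TT M
    · rw [psi_neg M hs, one_mul, kM_zero M hs d.2, mul_zero, add_zero]
      exact ih d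
    · rw [psi_pos M hs, game_mul_apply, game_simple, act_apply, ← ih d, ← ih ⟨s, hs⟩]
      rfl

theorem DD_NM (d : {x // x ∉ TT M}) : ¬ (DD (NM M).toCoxeterSystem d).FiniteIndex := by
  intro h
  apply d.2
  have h1 : ((DD (NM M).toCoxeterSystem d).comap (psi M)).FiniteIndex := fi_comap _ _
  show (DD M.toCoxeterSystem d.1).FiniteIndex
  apply Subgroup.finiteIndex_of_le (H := (DD (NM M).toCoxeterSystem d).comap (psi M))
  intro w hw p
  have h2 : psi M w ∈ DD (NM M).toCoxeterSystem d := hw
  rw [game_psi]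
  exact h2 _

/-- The parabolic subgroup of the coordinates with finite fixers is finite. -/
theorem Sph_TT : Sph M (TT M) := by
  classical
  have hfi : (⨅ x : ↥(TT M), DD M.toCoxeterSystem x.1).FiniteIndex :=
    Subgroup.finiteIndex_iInf (fun x => x.2)
  have hq : Finite (M.Group ⧸ (⨅ x : ↥(TT M), DD M.toCoxeterSystem x.1)) := inferInstance
  have hfix : ∀ w ∈ Subgroup.closure (M.simple '' TT M), ∀ p : B → ℝ, ∀ y, y ∉ TT M →
      game M.toCoxeterSystem w p y = p y := by
    intro w hw
    induction hw using Subgroup.closure_induction with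
    | mem x hx =>
      obtain ⟨s, hs, rfl⟩ := hx
      intro p y hy
      have h1 : game M.toCoxeterSystem (M.simple s) p y = p y + p s * kM M s y := by
        have h2 : M.simple s = M.toCoxeterSystem.simple s := rfl
        rw [h2, game_simple, act_apply]
      rw [h1, kM_zero M hs hy, mul_zero, add_zero]
    | one => intro p y _; rw [map_one]; rfl
    | mul x z _ _ hx hz =>
      intro p y hy
      rw [game_mul_apply, hx _ y hy, hz _ y hy]
    | inv x _ hx =>
      intro p y hy
      have h1 := hx (game M.toCoxeterSystem x⁻¹ p) y hy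
      rw [← game_mul_apply, mul_inv_cancel, map_one] at h1
      exact h1.symm
  show Finite ↥(Subgroup.closure (M.simple '' TT M))
  apply Finite.of_injective (fun w : ↥(Subgroup.closure (M.simple '' TT M)) =>
    (QuotientGroup.mk w.1 : M.Group ⧸ (⨅ x : ↥(TT M), DD M.toCoxeterSystem x.1)))
  intro w w' hww
  have h1 : w.1⁻¹ * w'.1 ∈ (⨅ x : ↥(TT M), DD M.toCoxeterSystem x.1) := QuotientGroup.eq.1 hww
  rw [Subgroup.mem_iInf] at h1
  have h2 : w.1⁻¹ * w'.1 = 1 := by
    apply eq_one_of_pos M.toCoxeterSystem (fun _ => (1 : ℝ)) (fun _ => one_pos)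
    intro i
    by_cases hi : i ∈ TT M
    · have h3 := h1 ⟨i, hi⟩
      have h4 : game M.toCoxeterSystem (w.1⁻¹ * w'.1) (fun _ => 1) i = 1 := h3 _
      rw [h4]; exact one_pos
    · rw [hfix _ (Subgroup.mul_mem _ (Subgroup.inv_mem _ w.2) w'.2) _ i hi]
      exact one_pos
  apply Subtype.ext
  exact inv_mul_eq_one.1 h2

open Classical in
/-- The projection of Artin groups. -/
noncomputable def proj : Art M →* Art (NM M) :=
  artLift (fun i => if h : i ∉ TT M then ag (NM M) ⟨i, h⟩ else 1) (by
    intro i j hij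
    by_cases h : i ∉ TT M <;> by_cases h' : j ∉ TT M
    · rw [dif_pos h, dif_pos h']
      exact art_braid (NM M) ⟨i, h⟩ ⟨j, h'⟩ hij
    · rw [M.symmetric i j, TT_two M (not_not.1 h') h, dif_pos h, dif_neg h']
      simp [altM]
    · rw [TT_two M (not_not.1 h) h', dif_neg h, dif_pos h']
      simp [altM]
    · rw [dif_neg h, dif_neg h'])

theorem proj_pos {i : B} (h : i ∉ TT M) : proj M (ag M i) = ag (NM M) ⟨i, h⟩ := by
  rw [proj, artLift_ag, dif_pos h]

theorem proj_neg {i : B} (h : i ∈ TT M) : proj M (ag M i) = 1 := by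
  rw [proj, artLift_ag, dif_neg (not_not.2 h)]

theorem proj_surj : Function.Surjective (proj M) := by
  intro a
  induction a using art_induction with
  | h1 => exact ⟨1, map_one _⟩
  | hg i => exact ⟨ag M i.1, proj_pos M i.2⟩
  | hm a b ha hb =>
    obtain ⟨a, rfl⟩ := ha
    obtain ⟨b, rfl⟩ := hb
    exact ⟨a * b, map_mul _ _ _⟩
  | hi a ha =>
    obtain ⟨a, rfl⟩ := ha
    exact ⟨a⁻¹, map_inv _ _⟩

theorem proj_mem {V : Set B} {a : Art M} (ha : a ∈ Subgroup.closure (ag M '' V)) :
    proj M a ∈ Subgroup.closure (ag (NM M) '' {d | d.1 ∈ V}) := by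
  induction ha using Subgroup.closure_induction with
  | mem x hx =>
    obtain ⟨v, hv, rfl⟩ := hx
    by_cases h : v ∈ TT M
    · rw [proj_neg M h]; exact Subgroup.one_mem _
    · rw [proj_pos M h]; exact Subgroup.subset_closure ⟨_, hv, rfl⟩
  | one => rw [map_one]; exact Subgroup.one_mem _
  | mul x z _ _ hx hz => rw [map_mul]; exact Subgroup.mul_mem _ hx hz
  | inv x _ hx => rw [map_inv]; exact Subgroup.inv_mem _ hx

theorem Sph_NM {V : Set B} (hV : Sph M V) : Sph (NM M) {d | d.1 ∈ V} := by
  apply (Set.Finite.image (psi M) hV).subset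
  have h1 : Subgroup.closure ((NM M).simple '' {d | d.1 ∈ V}) ≤
      (Subgroup.closure (M.simple '' V)).map (psi M) := by
    rw [Subgroup.closure_le]
    rintro _ ⟨d, hd, rfl⟩
    exact ⟨M.simple d.1, Subgroup.subset_closure ⟨_, hd, rfl⟩, psi_pos M d.2⟩
  exact h1

/-- The inclusion of the other factor. -/
noncomputable def iot : Art (NM M) →* Art M :=
  artMap Subtype.val (pull_lab M Subtype.val Subtype.val_injective)

omit [Fintype B] in
theorem comm_two {x y : B} (h : M x y = 2) : ag M x * ag M y = ag M y * ag M x := by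
  have h1 := art_braid M x y (by rw [h]; norm_num)
  rw [h] at h1
  simpa [altM] using h1

theorem comm_iot {a : Art M} (ha : a ∈ Subgroup.closure (ag M '' TT M)) (b : Art (NM M)) :
    a * iot M b = iot M b * a := by
  have h1 : ∀ i ∈ TT M, ∀ b, Commute (ag M i) (iot M b) := by
    intro i hi b
    induction b using art_induction with
    | h1 => rw [map_one]; exact Commute.one_right _
    | hg j =>
      have : iot M (ag (NM M) j) = ag M j.1 := artMap_ag _ _ _
      rw [this]
      exact comm_two M (TT_two M hi j.2)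
    | hm a b ha hb => rw [map_mul]; exact ha.mul_right hb
    | hi a ha => rw [map_inv]; exact ha.inv_right
  have h2 : Commute a (iot M b) := by
    induction ha using Subgroup.closure_induction with
    | mem x hx => obtain ⟨i, hi, rfl⟩ := hx; exact h1 i hi b
    | one => exact Commute.one_left _
    | mul x z _ _ hx hz => exact hx.mul_left hz
    | inv x _ hx => exact hx.inv_left
  exact h2

theorem split (h : Art M) : ∃ a ∈ Subgroup.closure (ag M '' TT M), h = a * iot M (proj M h) := by
  induction h using art_induction with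
  | h1 => exact ⟨1, Subgroup.one_mem _, by rw [map_one, map_one, mul_one]⟩
  | hg i =>
    by_cases hi : i ∈ TT M
    · exact ⟨ag M i, Subgroup.subset_closure ⟨i, hi, rfl⟩, by rw [proj_neg M hi, map_one, mul_one]⟩
    · refine ⟨1, Subgroup.one_mem _, ?_⟩
      have h1 : iot M (ag (NM M) ⟨i, hi⟩) = ag M i := artMap_ag _ _ _
      rw [proj_pos M hi, one_mul, h1]
  | hm a b ha hb =>
    obtain ⟨x, hx, hax⟩ := ha
    obtain ⟨y, hy, hby⟩ := hb
    refine ⟨x * y, Subgroup.mul_mem _ hx hy, ?_⟩
    rw [map_mul, map_mul]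
    nth_rewrite 1 [hax, hby]
    rw [mul_assoc x, ← mul_assoc (iot M (proj M a)), ← comm_iot M hy]
    simp only [mul_assoc]
  | hi a ha =>
    obtain ⟨x, hx, hax⟩ := ha
    refine ⟨x⁻¹, Subgroup.inv_mem _ hx, ?_⟩
    nth_rewrite 1 [hax]
    rw [mul_inv_rev, map_inv, map_inv, ← map_inv, ← comm_iot M (Subgroup.inv_mem _ hx)]

/-- Q1 for subgroups with a normaliser of finite index. -/
theorem norm_fi {H L : Subgroup (Art M)} (hH : ES M H) (hL : L.FiniteIndex)
    (hLH : ∀ g ∈ L, ∀ h ∈ H, g * h * g⁻¹ ∈ H) :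
    ∀ h ∈ H, h ∈ Subgroup.closure (ag M '' TT M) := by
  classical
  intro h hh
  have hES : ES (NM M) (H.map (proj M)) := by
    rintro _ ⟨h, hh, rfl⟩
    obtain ⟨V, hV, g, hg⟩ := hH h hh
    refine ⟨{d | d.1 ∈ V}, Sph_NM M hV, proj M g, ?_⟩
    have := proj_mem M hg
    rwa [map_mul, map_mul, map_inv] at this
  have hL' : (L.map (proj M)).FiniteIndex := by
    refine ⟨fun h0 => ?_⟩
    have h2 := Subgroup.index_map_dvd L (proj_surj M)
    rw [h0, zero_dvd_iff] at h2
    exact hL.index_ne_zero h2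
  have hLH' : ∀ g ∈ L.map (proj M), ∀ h ∈ H.map (proj M), g * h * g⁻¹ ∈ H.map (proj M) := by
    rintro _ ⟨g, hg, rfl⟩ _ ⟨h, hh, rfl⟩
    exact ⟨g * h * g⁻¹, hLH g hg h hh, by rw [map_mul, map_mul, map_inv]⟩
  have h1 := norm_trivial hES hL' hLH' (DD_NM M) (h := proj M h) ⟨h, hh, rfl⟩
  obtain ⟨a, ha, hha⟩ := split M h
  rw [h1, map_one, mul_one] at hha
  rw [hha]
  exact ha

end

end Pool.Agent.ArtSph
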