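import Pool.Agent.ArtSph.Dec

/-!
Artin groups; the steps of the retraction cocycle; the braid relations.
-/

set_option autoImplicit false

namespace Pool.Agent.ArtSph

open CoxeterSystem Pool.Agent.FBuild

section art

variable {B : Type} (M : CoxeterMatrix B)

/-- The relators of the Artin group. -/
def artRels : Set (FreeGroup B) :=
  {r : FreeGroup B | ∃ i j : B, M i j ≠ 0 ∧
    r = ((FreeGroup.of i * FreeGroup.of j) ^ (M i j / 2) * FreeGroup.of i ^ (M i j % 2)) *
      ((FreeGroup.of j * FreeGroup.of i) ^ (M i j / 2) * FreeGroup.of j ^ (M i j % 2))⁻¹}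

/-- The Artin group. -/
abbrev Art : Type := PresentedGroup (artRels M)

/-- The generators. -/
def ag (i : B) : Art M := PresentedGroup.of i

theorem altM_eq {P : Type} [Monoid P] (x y : P) (n : ℕ) :
    altM x y n = (x * y) ^ (n / 2) * x ^ (n % 2) := by
  obtain ⟨k, rfl | rfl⟩ := n.even_or_odd'
  · rw [altM_even, Nat.mul_div_cancel_left _ two_pos, Nat.mul_mod_right, pow_zero, mul_one]
  · rw [altM_odd, show (2 * k + 1) / 2 = k by omega, show (2 * k + 1) % 2 = 1 by omega, pow_one]

theorem art_braid (i j : B) (h : M i j ≠ 0) :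
    altM (ag M i) (ag M j) (M i j) = altM (ag M j) (ag M i) (M i j) := by
  rw [altM_eq, altM_eq]
  have h1 : (PresentedGroup.mk (artRels M)) (((FreeGroup.of i * FreeGroup.of j) ^ (M i j / 2) *
      FreeGroup.of i ^ (M i j % 2)) *
      ((FreeGroup.of j * FreeGroup.of i) ^ (M i j / 2) * FreeGroup.of j ^ (M i j % 2))⁻¹) = 1 :=
    PresentedGroup.one_of_mem ⟨i, j, h, rfl⟩
  rw [map_mul, map_inv, mul_inv_eq_one] at h1
  simp only [map_mul, map_pow] at h1
  exact h1

variable {M}

/-- Homomorphisms out of the Artin group. -/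
def artLift {G : Type} [Group G] (f : B → G)
    (h : ∀ i j, M i j ≠ 0 → altM (f i) (f j) (M i j) = altM (f j) (f i) (M i j)) : Art M →* G :=
  PresentedGroup.toGroup (f := f) (by
    rintro r ⟨i, j, hij, rfl⟩
    have h1 := h i j hij
    rw [altM_eq, altM_eq] at h1
    simp only [map_mul, map_inv, map_pow, FreeGroup.lift_apply_of]
    rw [h1, mul_inv_cancel])

@[simp] theorem artLift_ag {G : Type} [Group G] (f : B → G)
    (h : ∀ i j, M i j ≠ 0 → altM (f i) (f j) (M i j) = altM (f j) (f i) (M i j)) (i : B) :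
    artLift f h (ag M i) = f i := PresentedGroup.toGroup.of _

theorem art_induction {P : Art M → Prop} (h1 : P 1) (hg : ∀ i, P (ag M i))
    (hm : ∀ a b, P a → P b → P (a * b)) (hi : ∀ a, P a → P a⁻¹) (a : Art M) : P a := by
  have h : a ∈ (Subgroup.closure (Set.range (ag M)) : Subgroup (Art M)) := by
    have : Subgroup.closure (Set.range (ag M)) = ⊤ := PresentedGroup.closure_range_of _
    rw [this]; trivial
  induction h using Subgroup.closure_induction with
  | mem x hx => obtain ⟨i, rfl⟩ := hx; exact hg i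
  | one => exact h1
  | mul x y _ _ hx hy => exact hm x y hx hy
  | inv x _ hx => exact hi x hx

/-- The map of Artin groups induced by a map preserving the labels. -/
def artMap {C : Type} {N : CoxeterMatrix C} (j : C → B) (hj : ∀ c c', N c c' = M (j c) (j c')) :
    Art N →* Art M :=
  artLift (fun c => ag M (j c)) (fun c c' h => by
    have := art_braid M (j c) (j c') (by rw [← hj]; exact h)
    rw [hj]; exact this)

@[simp] theorem artMap_ag {C : Type} {N : CoxeterMatrix C} (j : C → B)
    (hj : ∀ c c', N c c' = M (j c) (j c')) (c : C) : artMap j hj (ag N c) = ag M (j c) :=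
  artLift_ag _ _ c

end art

section steps

variable {B W C : Type} [Group W] {M : CoxeterMatrix B} (cs : CoxeterSystem M W) (t : C → B)
  (N : CoxeterMatrix C)

open Classical in
/-- The step of the cocycle. -/
noncomputable def step (w : W) (s : B) : Art N :=
  if h : ∃ c, cs.simple (t c) * red cs t w = red cs t w * cs.simple s then ag N h.choose else 1

variable {cs t N}

theorem step_eq (ht : Function.Injective t) {w : W} {s : B} {c : C}
    (h : cs.simple (t c) * red cs t w = red cs t w * cs.simple s) : step cs t N w s = ag N c := by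
  have hex : ∃ c, cs.simple (t c) * red cs t w = red cs t w * cs.simple s := ⟨c, h⟩
  have h1 := hex.choose_spec
  rw [step, dif_pos hex]
  congr 1
  apply ht
  apply simple_inj cs
  exact mul_right_cancel (h1.trans h.symm)

theorem step_eq_one {w : W} {s : B}
    (h : ∀ c, cs.simple (t c) * red cs t w ≠ red cs t w * cs.simple s) :
    step cs t N w s = 1 := by
  rw [step, dif_neg]
  rintro ⟨c, hc⟩
  exact h c hc

variable (hN : ∀ c c', N c c' = M (t c) (t c'))

include hN in
theorem step_mul {u : W} (hu : u ∈ Wt cs t) (w : W) (s : B) :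
    step cs t N (u * w) s = step cs t N w s := by
  unfold step
  rw [red_mul hN hu]

/-- The cocycle along an alternating word. -/
noncomputable def kc (cs : CoxeterSystem M W) (t : C → B) (N : CoxeterMatrix C) (w : W) (x y : B) :
    ℕ → Art N
  | 0 => 1
  | n + 1 => step cs t N w x * kc cs t N (w * cs.simple x) y x n

include hN in
theorem kc_mul {u : W} (hu : u ∈ Wt cs t) (w : W) (x y : B) (n : ℕ) :
    kc cs t N (u * w) x y n = kc cs t N w x y n := by
  induction n generalizing w x y with
  | zero => rfl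
  | succ n ih => rw [kc, kc, step_mul hN hu, mul_assoc, ih]

end steps

section conj

variable {B W C D : Type} [Group W] {M : CoxeterMatrix B} {cs : CoxeterSystem M W} {t : C → B}
  {N : CoxeterMatrix C} {N' : CoxeterMatrix D} {j : D → C} {t' : D → B} {d : W}

theorem label_conj (hN : ∀ c c', N c c' = M (t c) (t c'))
    (heq : ∀ e, cs.simple (t (j e)) * d = d * cs.simple (t' e)) (e e' : D) :
    N (j e) (j e') = M (t' e) (t' e') := by
  rw [hN, ← orderOf_simple_mul cs, ← orderOf_simple_mul cs]
  have h1 : cs.simple (t (j e)) * cs.simple (t (j e')) =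
      MulAut.conj d (cs.simple (t' e) * cs.simple (t' e')) := by
    rw [MulAut.conj_apply, ← mul_assoc, ← heq, mul_assoc (cs.simple (t (j e))), ← heq]
    group
  rw [h1]
  exact MulEquiv.orderOf_eq _ _

theorem tinj_conj (ht : Function.Injective t) (hj : Function.Injective j)
    (heq : ∀ e, cs.simple (t (j e)) * d = d * cs.simple (t' e)) : Function.Injective t' := by
  intro e e' h
  apply hj
  apply ht
  apply simple_inj cs
  apply mul_right_cancel (b := d)
  rw [heq, heq, h]

theorem conj_mem_Wt (heq : ∀ e, cs.simple (t (j e)) * d = d * cs.simple (t' e)) {u : W}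
    (hu : u ∈ Wt cs t') : d * u * d⁻¹ ∈ Wt cs t := by
  induction hu using Subgroup.closure_induction with
  | mem x hx =>
    obtain ⟨e, rfl⟩ := hx
    show d * cs.simple (t' e) * d⁻¹ ∈ _
    rw [← heq, mul_inv_cancel_right]
    exact simple_mem_Wt cs t _
  | one => rw [mul_one, mul_inv_cancel]; exact Subgroup.one_mem _
  | mul x y _ _ hx hy =>
    have : d * (x * y) * d⁻¹ = (d * x * d⁻¹) * (d * y * d⁻¹) := by group
    rw [this]
    exact Subgroup.mul_mem _ hx hy
  | inv x _ hx =>
    have : d * x⁻¹ * d⁻¹ = (d * x * d⁻¹)⁻¹ := by group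
    rw [this]
    exact Subgroup.inv_mem _ hx

/-- The reduced part in a conjugated coset. -/
theorem red_conj (hN : ∀ c c', N c c' = M (t c) (t c')) (hd : IsRed cs t d) (heq : ∀ e, cs.simple (t (j e)) * d = d * cs.simple (t' e))
    (Y : Subgroup W) (hY : ∀ e, cs.simple (t' e) ∈ Y)
    (hout : ∀ c, c ∉ Set.range j → ∀ y ∈ Y, Asc cs (d * y) (t c)) {y : W} (hy : y ∈ Y) :
    red cs t (d * y) = d * red cs t' y ∧ red cs t' y ∈ Y ∧ IsRed cs t (d * red cs t' y) := by
  obtain ⟨u, hu, hyu⟩ := red_dec cs t' y
  have hWY : Wt cs t' ≤ Y := by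
    rw [Wt, Subgroup.closure_le]
    rintro _ ⟨e, rfl⟩
    exact hY e
  have h1 : red cs t' y ∈ Y := by
    have : red cs t' y = u⁻¹ * y := eq_inv_mul_of_mul_eq hyu.symm
    rw [this]
    exact Y.mul_mem (Y.inv_mem (hWY hu)) hy
  have h2 : IsRed cs t (d * red cs t' y) := by
    intro c
    by_cases hc : c ∈ Set.range j
    · obtain ⟨e, rfl⟩ := hc
      exact (asc_mul_iff cs (hd _) (heq e) _).2 (red_isRed cs t' y e)
    · exact hout c hc _ h1
  refine ⟨?_, h1, h2⟩
  nth_rewrite 1 [hyu]
  have h3 : d * (u * red cs t' y) = (d * u * d⁻¹) * (d * red cs t' y) := by group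
  rw [h3]
  exact red_eq hN (conj_mem_Wt heq hu) h2

/-- The steps in a conjugated coset. -/
theorem step_conj (ht : Function.Injective t) (hj : Function.Injective j)
    (hN : ∀ c c', N c c' = M (t c) (t c'))
    (hjN : ∀ e e', N' e e' = N (j e) (j e'))
    (hd : IsRed cs t d) (heq : ∀ e, cs.simple (t (j e)) * d = d * cs.simple (t' e))
    (Y : Subgroup W) (hY : ∀ e, cs.simple (t' e) ∈ Y)
    (hout : ∀ c, c ∉ Set.range j → ∀ y ∈ Y, Asc cs (d * y) (t c)) {y : W} (hy : y ∈ Y)
    {x : B} (hx : cs.simple x ∈ Y) :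
    step cs t N (d * y) x = artMap j hjN (step cs t' N' y x) := by
  obtain ⟨h1, h2, h3⟩ := red_conj hN hd heq Y hY hout hy
  by_cases h : ∃ e, cs.simple (t' e) * red cs t' y = red cs t' y * cs.simple x
  · obtain ⟨e, he⟩ := h
    rw [step_eq (tinj_conj ht hj heq) he, artMap_ag]
    apply step_eq ht
    rw [h1, ← mul_assoc, heq, mul_assoc, he, mul_assoc]
  · push Not at h
    rw [step_eq_one h, map_one]
    apply step_eq_one
    intro c hc
    rw [h1] at hc
    by_cases hcj : c ∈ Set.range j
    · obtain ⟨e, rfl⟩ := hcj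
      apply h e
      rw [← mul_assoc, heq, mul_assoc, mul_assoc] at hc
      exact mul_left_cancel hc
    · have h4 := hout c hcj (red cs t' y * cs.simple x) (Y.mul_mem h2 hx)
      rw [← mul_assoc, ← hc] at h4
      exact not_asc_simple_mul cs (h3 c) h4

theorem kc_conj (ht : Function.Injective t) (hj : Function.Injective j)
    (hN : ∀ c c', N c c' = M (t c) (t c'))
    (hjN : ∀ e e', N' e e' = N (j e) (j e'))
    (hd : IsRed cs t d) (heq : ∀ e, cs.simple (t (j e)) * d = d * cs.simple (t' e))
    (Y : Subgroup W) (hY : ∀ e, cs.simple (t' e) ∈ Y)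
    (hout : ∀ c, c ∉ Set.range j → ∀ y ∈ Y, Asc cs (d * y) (t c)) {y : W} (hy : y ∈ Y)
    {x x' : B} (hx : cs.simple x ∈ Y) (hx' : cs.simple x' ∈ Y) (n : ℕ) :
    kc cs t N (d * y) x x' n = artMap j hjN (kc cs t' N' y x x' n) := by
  induction n generalizing y x x' with
  | zero => simp [kc]
  | succ n ih =>
    rw [kc, kc, map_mul, step_conj ht hj hN hjN hd heq Y hY hout hy hx, mul_assoc d,
      ih (Y.mul_mem hy hx) hx' hx]

end conj

end Pool.Agent.ArtSph
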