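import Mathlib

/-!
Random subproducts: some element of a group lies outside at least half of finitely many given
proper subgroups.
-/

set_option autoImplicit false

namespace Pool.Agent.ArtSph

variable {G : Type} [Group G]

/-- The list of the subproducts (last element first). -/
def subs : List G → List G
  | [] => [1]
  | g :: L => subs L ++ (subs L).map (· * g)

theorem subs_length (L : List G) : (subs L).length = 2 ^ L.length := by
  induction L with
  | nil => rfl
  | cons g L ih => rw [subs, List.length_append, List.length_map, ih, List.length_cons, pow_succ,
      mul_two]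

open Classical in
theorem subs_count (L : List G) (N : Subgroup G) (h : ∃ g ∈ L, g ∉ N) :
    2 * (subs L).countP (fun x => decide (x ∈ N)) ≤ (subs L).length := by
  induction L with
  | nil => simp at h
  | cons g L ih =>
    rw [subs, List.countP_append, List.length_append, List.length_map, List.countP_map]
    by_cases hg : g ∈ N
    · have h1 : ∃ g ∈ L, g ∉ N := by
        obtain ⟨x, hx, hxN⟩ := h
        rcases List.mem_cons.1 hx with rfl | hx
        · exact absurd hg hxN
        · exact ⟨x, hx, hxN⟩
      have h2 : ((fun x => decide (x ∈ N)) ∘ fun x => x * g) = fun x => decide (x ∈ N) := by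
        funext x
        simp only [Function.comp]
        congr 1
        exact propext (N.mul_mem_cancel_right hg)
      rw [h2]
      have := ih h1
      omega
    · have h3 : ∀ L' : List G, L'.countP (fun x => decide (x ∈ N)) +
          L'.countP ((fun x => decide (x ∈ N)) ∘ fun x => x * g) ≤ L'.length := by
        intro L'
        induction L' with
        | nil => simp
        | cons x L' ih' =>
          rw [List.countP_cons, List.countP_cons, List.length_cons]
          have h4 : ¬ (x ∈ N ∧ x * g ∈ N) := by
            rintro ⟨h5, h6⟩
            exact hg ((N.mul_mem_cancel_left h5).1 h6)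
          simp only [Function.comp, decide_eq_true_eq]
          by_cases h5 : x ∈ N
          · have h6 : x * g ∉ N := fun h6 => h4 ⟨h5, h6⟩
            simp only [h5, h6, if_true, if_false]
            omega
          · simp only [h5, if_false]
            split_ifs <;> omega
      have := h3 (subs L)
      omega

open Classical in
/-- Some element lies outside at least half of the given proper subgroups. -/
theorem exists_outside (S : Finset (Subgroup G)) (hS : ∀ N ∈ S, N ≠ ⊤) :
    ∃ h : G, S.card ≤ 2 * (S.filter (fun N => h ∉ N)).card := by
  have hex : ∀ N : Subgroup G, N ≠ ⊤ → ∃ g, g ∉ N := by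
    intro N hN
    by_contra hcon
    push Not at hcon
    exact hN ((Subgroup.eq_top_iff' N).2 hcon)
  choose! f hf using hex
  set L : List G := S.toList.map f with hL
  have h1 : ∀ N ∈ S, 2 * (subs L).countP (fun x => decide (x ∈ N)) ≤ (subs L).length := by
    intro N hN
    apply subs_count
    exact ⟨f N, List.mem_map.2 ⟨N, Finset.mem_toList.2 hN, rfl⟩, hf N (hS N hN)⟩
  by_contra hcon
  push Not at hcon
  -- sum over the subproducts
  have h2 : ∀ L' : List G, ∑ N ∈ S, L'.countP (fun x => decide (x ∈ N)) =
      (L'.map (fun x => (S.filter (fun N => x ∈ N)).card)).sum := by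
    intro L'
    induction L' with
    | nil => simp
    | cons x L' ih =>
      rw [List.map_cons, List.sum_cons, ← ih, Finset.card_filter, ← Finset.sum_add_distrib]
      apply Finset.sum_congr rfl
      intro N _
      rw [List.countP_cons, add_comm]
      simp
  have h3 : 2 * ∑ N ∈ S, (subs L).countP (fun x => decide (x ∈ N)) ≤ S.card * (subs L).length := by
    rw [Finset.mul_sum]
    calc ∑ N ∈ S, 2 * (subs L).countP (fun x => decide (x ∈ N)) ≤ ∑ N ∈ S, (subs L).length :=
          Finset.sum_le_sum h1
      _ = S.card * (subs L).length := by rw [Finset.sum_const, smul_eq_mul]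
  rw [h2] at h3
  have h4 : ∀ x : G, S.card + 1 ≤ 2 * (S.filter (fun N => x ∈ N)).card := by
    intro x
    have h5 := hcon x
    have h6 : (S.filter (fun N => x ∈ N)).card + (S.filter (fun N => x ∉ N)).card = S.card :=
      Finset.card_filter_add_card_filter_not _
    omega
  have h5 : ∀ L' : List G, (S.card + 1) * L'.length ≤
      2 * (L'.map (fun x => (S.filter (fun N => x ∈ N)).card)).sum := by
    intro L'
    induction L' with
    | nil => simp
    | cons x L' ih =>
      rw [List.map_cons, List.sum_cons, List.length_cons, mul_add, mul_add, mul_one]
      have := h4 x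
      omega
  have h6 := h5 (subs L)
  have h7 : 0 < (subs L).length := by rw [subs_length]; positivity
  nlinarith

end Pool.Agent.ArtSph
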