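import Pool.Agent.ArtSph.Coc
import Pool.Agent.ArtSph.Sub

/-!
The filtration of an elementwise spherical subgroup and the finiteness of the kernels.
-/

set_option autoImplicit false

namespace Pool.Agent.ArtSph

open CoxeterSystem Pool.Agent.FBuild

section

variable {B : Type} [Fintype B] (M : CoxeterMatrix B)

/-- The pulled back Coxeter matrix. -/
def pullM {B : Type} (M : CoxeterMatrix B) {C : Type} (t : C → B) (ht : Function.Injective t) :
    CoxeterMatrix C where
  M := fun c c' => M (t c) (t c')
  isSymm := by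
    ext c c'
    exact M.symmetric _ _
  diagonal := fun c => M.diagonal _
  off_diagonal := fun c c' h => M.off_diagonal _ _ (fun h' => h (ht h'))

theorem pull_lab {B : Type} (M : CoxeterMatrix B) {C : Type} (t : C → B)
    (ht : Function.Injective t) (c c' : C) : pullM M t ht c c' = M (t c) (t c') := rfl

/-- The cocycle of an embedding. -/
noncomputable def pc {C : Type} (t : C → B) (ht : Function.Injective t) (w : M.Group)
    (h : Art M) : Art (pullM M t ht) :=
  coc M.toCoxeterSystem (N := pullM M t ht) ht (pull_lab M t ht) w h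

/-- The map to the Coxeter group. -/
noncomputable abbrev th {B : Type} (M : CoxeterMatrix B) : Art M →* M.Group :=
  theta M.toCoxeterSystem

/-- The kernel of the retraction homomorphism. -/
noncomputable def kerc {C : Type} (t : C → B) (ht : Function.Injective t) (w : M.Group) :
    Subgroup (Art M) where
  carrier := {h | th M h = 1 ∧ pc M t ht w h = 1}
  one_mem' := ⟨map_one _, coc_one _ _ _ _⟩
  mul_mem' := by
    rintro a b ⟨ha, ha'⟩ ⟨hb, hb'⟩
    refine ⟨by rw [map_mul, ha, hb, one_mul], ?_⟩
    unfold pc at *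
    rw [coc_pure_mul _ _ _ _ _ _ ha, ha', hb', one_mul]
  inv_mem' := by
    rintro a ⟨ha, ha'⟩
    refine ⟨by rw [map_inv, ha, inv_one], ?_⟩
    unfold pc at *
    rw [coc_inv]
    have : theta M.toCoxeterSystem a = 1 := ha
    rw [this, inv_one, mul_one, ha', inv_one]

/-- `h` is killed by all retractions onto faces of rank at most `r`. -/
def Triv (r : ℕ) (h : Art M) : Prop :=
  ∀ (C : Type) (t : C → B) (ht : Function.Injective t), Nat.card C ≤ r →
    ∀ w, pc M t ht w h = 1

theorem pc_conj {C : Type} (t : C → B) (ht : Function.Injective t) (w : M.Group) (a h : Art M)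
    (hh : th M h = 1) : pc M t ht w (a * h * a⁻¹) =
      pc M t ht w a * pc M t ht (w * th M a) h * (pc M t ht w a)⁻¹ :=
  coc_conj_pure _ _ _ _ _ _ hh

theorem pc_conj_eq_one {C : Type} (t : C → B) (ht : Function.Injective t) (w : M.Group)
    (a h : Art M) (hh : th M h = 1) :
    pc M t ht w (a * h * a⁻¹) = 1 ↔ pc M t ht (w * th M a) h = 1 := by
  rw [pc_conj _ _ _ _ _ _ hh]
  exact conj_eq_one_iff

/-- Transfer of the cocycle along an equality of all reflections. -/
theorem pc_full {C : Type} [Finite C] (t t' : C → B) (ht : Function.Injective t)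
    (ht' : Function.Injective t') (d : M.Group) (hd : IsRed M.toCoxeterSystem t d)
    (heq : ∀ c, M.simple (t c) * d = d * M.simple (t' c)) (y : M.Group) (h : Art M) :
    pc M t ht (d * y) h = 1 ↔ pc M t' ht' y h = 1 := by
  have hfin := Fintype.ofFinite C
  have heq' : ∀ c, M.toCoxeterSystem.simple (t (id c)) * d =
      d * M.toCoxeterSystem.simple (t' c) := heq
  have hlab : ∀ e e', (pullM M t ht) e e' = M (t' e) (t' e') := fun e e' =>
    label_conj (cs := M.toCoxeterSystem) (t := t) (N := pullM M t ht) (j := id) (pull_lab M t ht)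
      heq' e e'
  have hjN : ∀ e e', (pullM M t' ht') e e' = (pullM M t ht) (id e) (id e') :=
    fun e e' => (hlab e e').symm
  have hh : h ∈ Subgroup.closure (ag M '' Set.univ) := by
    rw [Set.image_univ]
    have : Subgroup.closure (Set.range (ag M)) = ⊤ := PresentedGroup.closure_range_of _
    rw [this]; trivial
  have key := coc_conj (cs := M.toCoxeterSystem) (N := pullM M t ht) (N' := pullM M t' ht')
    (j := (id : C → C)) (d := d) ht
    Function.injective_id (pull_lab M t ht) ht' (pull_lab M t' ht') hjN hd heq' ⊤ (fun _ => trivial)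
    (fun c hc => absurd ⟨c, rfl⟩ hc) Set.univ (fun _ _ => trivial) hh (y := y) trivial
  unfold pc
  rw [key]
  have hinj := artMap_injective (pullM M t ht).toCoxeterSystem Function.injective_id hjN
  constructor
  · intro h1
    exact hinj (by rw [h1, map_one])
  · intro h1
    rw [h1, map_one]

theorem dich {C : Type} [Finite C] (t : C → B) (ht : Function.Injective t) {r : ℕ}
    (hC : Nat.card C = r + 1) (w : M.Group) {V : Set B} {a k : Art M}
    (hk : k ∈ Subgroup.closure (ag M '' V)) (hθ : th M k = 1)
    (hT : Triv M r (a * k * a⁻¹)) (hne : pc M t ht w (a * k * a⁻¹) ≠ 1) :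
    ∃ (t' : C → B) (ht' : Function.Injective t') (y : M.Group), (∀ c, t' c ∈ V) ∧
      y ∈ Subgroup.closure (M.simple '' V) ∧
      (∃ d : M.Group, ∀ c, M.simple (t c) * d = d * M.simple (t' c)) ∧
      ∀ h', th M h' = 1 → (pc M t ht w h' = 1 ↔ pc M t' ht' y (a⁻¹ * h' * a) = 1) := by
  set cs := M.toCoxeterSystem with hcs
  have hne' : pc M t ht (w * th M a) k ≠ 1 := fun h => hne ((pc_conj_eq_one _ _ _ _ _ _ hθ).2 h)
  obtain ⟨u, hu, d, y, hy, hw, hd, hdV⟩ := exists_double cs t V (w * th M a)
  have hsub : Function.Injective (Subtype.val : DIdx cs t V d → C) := Subtype.val_injective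
  have hmem : ∀ v ∈ V, cs.simple v ∈ Subgroup.closure (cs.simple '' V) :=
    fun v hv => Subgroup.subset_closure ⟨v, hv, rfl⟩
  have ht1 : Function.Injective (dmap cs t V d) :=
    tinj_conj (cs := cs) (t := t) ht hsub (fun e => dmap_eq e)
  have hlab : ∀ e e', (pullM M (dmap cs t V d) ht1) e e' = (pullM M t ht) e.1 e'.1 :=
    fun e e' => (label_conj (cs := cs) (t := t) (N := pullM M t ht) (j := Subtype.val)
      (pull_lab M t ht) (fun e => dmap_eq e) e e').symm
  have key := coc_conj (cs := cs) (N := pullM M t ht) (N' := pullM M (dmap cs t V d) ht1)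
    (j := (Subtype.val : DIdx cs t V d → C)) (d := d) ht hsub (pull_lab M t ht) ht1
    (pull_lab M _ ht1) hlab hd (fun e => dmap_eq e) (Subgroup.closure (cs.simple '' V))
    (fun e => hmem _ (dmap_mem e)) (dout hd hdV) V hmem hk (y := y) hy
  have h1 : pc M (dmap cs t V d) ht1 y k ≠ 1 := by
    intro h1
    apply hne'
    rw [hw]
    have e1 : pc M t ht (u * (d * y)) k = pc M t ht (d * y) k := coc_left cs ht _ hu _ _
    rw [e1]
    show coc cs ht _ (d * y) k = 1
    rw [key]
    have h2 : coc cs ht1 (N := pullM M (dmap cs t V d) ht1) (pull_lab M _ ht1) y k = 1 := h1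
    rw [h2, map_one]
  have hfinD : Finite (DIdx cs t V d) := Finite.of_injective _ hsub
  have hcard : ¬ Nat.card (DIdx cs t V d) ≤ r := by
    intro hle
    apply h1
    have h2 := hT _ (dmap cs t V d) ht1 hle (y * (th M a)⁻¹)
    rw [pc_conj_eq_one _ _ _ _ _ _ hθ, inv_mul_cancel_right] at h2
    exact h2
  have hcard' : Nat.card (DIdx cs t V d) = Nat.card C :=
    le_antisymm (Nat.card_le_card_of_injective _ hsub) (by omega)
  have hsurj : ∀ c : C, ∃ v ∈ V, cs.simple (t c) * d = d * cs.simple v := by
    intro c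
    have hbij : Function.Bijective (Subtype.val : DIdx cs t V d → C) :=
      (Nat.bijective_iff_injective_and_card _).2 ⟨hsub, hcard'⟩
    obtain ⟨e, rfl⟩ := hbij.2 c
    exact e.2
  choose t' ht'V heq using hsurj
  have ht' : Function.Injective t' :=
    tinj_conj (cs := cs) (t := t) (j := (id : C → C)) ht Function.injective_id heq
  refine ⟨t', ht', y, ht'V, hy, ⟨d, heq⟩, ?_⟩
  intro h' hh'
  have hh'' : th M (a⁻¹ * h' * a) = 1 := by
    rw [map_mul, map_mul, hh', map_inv, mul_one, inv_mul_cancel]
  have e2 : h' = a * (a⁻¹ * h' * a) * a⁻¹ := by group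
  rw [← pc_full M t t' ht ht' d hd heq y]
  conv_lhs => rw [e2]
  rw [pc_conj_eq_one _ _ _ _ _ _ hh'', hw]
  have e1 : pc M t ht (u * (d * y)) (a⁻¹ * h' * a) = pc M t ht (d * y) (a⁻¹ * h' * a) :=
    coc_left cs ht _ hu _ _
  rw [e1]

end

end Pool.Agent.ArtSph
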