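import Pool.Agent.ArtSph.Embed

/-!
The walls of a face with nontrivial retraction lie in the parabolic subgroup of the element.
-/

set_option autoImplicit false

namespace Pool.Agent.ArtSph

open CoxeterSystem Pool.Agent.FBuild

section

variable {B : Type} [Fintype B] (M : CoxeterMatrix B)

theorem wall {C : Type} [Finite C] (t : C → B) (ht : Function.Injective t) {r : ℕ}
    (hC : Nat.card C = r + 1) (w : M.Group) {V : Set B} {a k : Art M}
    (hk : k ∈ Subgroup.closure (ag M '' V)) (hθ : th M k = 1)
    (hT : Triv M r (a * k * a⁻¹)) (hne : pc M t ht w (a * k * a⁻¹) ≠ 1) (c : C) :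
    (th M a)⁻¹ * (w⁻¹ * M.simple (t c) * w) * th M a ∈ Subgroup.closure (M.simple '' V) := by
  set cs := M.toCoxeterSystem with hcs
  have hne' : pc M t ht (w * th M a) k ≠ 1 := fun h => hne ((pc_conj_eq_one _ _ _ _ _ _ hθ).2 h)
  obtain ⟨u, hu, d, y, hy, hw, hd, hdV⟩ := exists_double cs t V (w * th M a)
  have hsub : Function.Injective (Subtype.val : DIdx cs t V d → C) := Subtype.val_injective
  have hmem : ∀ v ∈ V, cs.simple v ∈ Subgroup.closure (cs.simple '' V) :=
    fun v hv => Subgroup.subset_closure ⟨v, hv, rfl⟩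
  have ht1 : Function.Injective (dmap cs t V d) :=
    tinj_conj (cs := cs) (t := t) ht hsub (fun e => dmap_eq e)
  have hlab : ∀ e e', (pullM M (dmap cs t V d) ht1) e e' = (pullM M t ht) e.1 e'.1 :=
    fun e e' => (label_conj (cs := cs) (t := t) (N := pullM M t ht) (j := Subtype.val)
      (pull_lab M t ht) (fun e => dmap_eq e) e e').symm
  have key := coc_conj (cs := cs) (N := pullM M t ht) (N' := pullM M (dmap cs t V d) ht1)
    (j := (Subtype.val : DIdx cs t V d → C)) (d := d) ht hsub (pull_lab M t ht) ht1
    (pull_lab M _ ht1) hlab hd (fun e => dmap_eq e) (Subgroup.closure (cs.simple '' V))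
    (fun e => hmem _ (dmap_mem e)) (dout hd hdV) V hmem hk (y := y) hy
  have h1 : pc M (dmap cs t V d) ht1 y k ≠ 1 := by
    intro h1
    apply hne'
    rw [hw]
    have e1 : pc M t ht (u * (d * y)) k = pc M t ht (d * y) k := coc_left cs ht _ hu _ _
    rw [e1]
    show coc cs ht _ (d * y) k = 1
    rw [key]
    have h2 : coc cs ht1 (N := pullM M (dmap cs t V d) ht1) (pull_lab M _ ht1) y k = 1 := h1
    rw [h2, map_one]
  have hfinD : Finite (DIdx cs t V d) := Finite.of_injective _ hsub
  have hcard : ¬ Nat.card (DIdx cs t V d) ≤ r := by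
    intro hle
    apply h1
    have h2 := hT _ (dmap cs t V d) ht1 hle (y * (th M a)⁻¹)
    rw [pc_conj_eq_one _ _ _ _ _ _ hθ, inv_mul_cancel_right] at h2
    exact h2
  have hcard' : Nat.card (DIdx cs t V d) = Nat.card C :=
    le_antisymm (Nat.card_le_card_of_injective _ hsub) (by omega)
  have hsurj : ∀ c : C, ∃ v ∈ V, cs.simple (t c) * d = d * cs.simple v := by
    intro c
    have hbij : Function.Bijective (Subtype.val : DIdx cs t V d → C) :=
      (Nat.bijective_iff_injective_and_card _).2 ⟨hsub, hcard'⟩
    obtain ⟨e, rfl⟩ := hbij.2 c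
    exact e.2
  have hWt : ∀ z ∈ Wt cs t, d⁻¹ * z * d ∈ Subgroup.closure (cs.simple '' V) := by
    intro z hz
    induction hz using Subgroup.closure_induction with
    | mem x hx =>
      obtain ⟨c, rfl⟩ := hx
      obtain ⟨v, hv, h⟩ := hsurj c
      show d⁻¹ * cs.simple (t c) * d ∈ _
      rw [mul_assoc, h, inv_mul_cancel_left]
      exact hmem v hv
    | one => rw [mul_one, inv_mul_cancel]; exact Subgroup.one_mem _
    | mul x z _ _ hx hz =>
      have : d⁻¹ * (x * z) * d = (d⁻¹ * x * d) * (d⁻¹ * z * d) := by group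
      rw [this]; exact Subgroup.mul_mem _ hx hz
    | inv x _ hx =>
      have : d⁻¹ * x⁻¹ * d = (d⁻¹ * x * d)⁻¹ := by group
      rw [this]; exact Subgroup.inv_mem _ hx
  have e3 : (th M a)⁻¹ * (w⁻¹ * M.simple (t c) * w) * th M a =
      y⁻¹ * (d⁻¹ * (u⁻¹ * M.simple (t c) * u) * d) * y := by
    have e4 : (th M a)⁻¹ * (w⁻¹ * M.simple (t c) * w) * th M a =
      (w * th M a)⁻¹ * M.simple (t c) * (w * th M a) := by group
    rw [e4, hw]
    group
  rw [e3]
  apply Subgroup.mul_mem _ (Subgroup.mul_mem _ (Subgroup.inv_mem _ hy) _) hy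
  apply hWt
  exact Subgroup.mul_mem _ (Subgroup.mul_mem _ (Subgroup.inv_mem _ hu) (simple_mem_Wt cs t c)) hu

end

theorem fi_comap {G G' : Type} [Group G] [Group G'] (f : G →* G') (H : Subgroup G')
    [H.FiniteIndex] : (H.comap f).FiniteIndex := by
  refine ⟨?_⟩
  rw [Subgroup.index_comap]
  have h2 : (H.subgroupOf f.range).FiniteIndex := inferInstance
  exact h2.index_ne_zero

section root

variable {B W : Type} [Fintype B] [Group W] {M : CoxeterMatrix B} (cs : CoxeterSystem M W)

open Classical in
/-- The coefficients of the functional `p ↦ (w p)_x`. -/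
noncomputable def coef (w : W) (x : B) (i : B) : ℝ := game cs w (Pi.single i 1) x

open Classical in
theorem game_eq_sum (w : W) (x : B) (p : B → ℝ) :
    game cs w p x = ∑ i, p i * coef cs w x i := by
  have h1 : p = ∑ k, p k • (Pi.single k 1 : B → ℝ) := by
    funext l
    simp [Finset.sum_apply, Pi.single_apply]
  conv_lhs => rw [h1]
  rw [map_sum, Finset.sum_apply]
  apply Finset.sum_congr rfl
  intro k _
  rw [map_smul, Pi.smul_apply, smul_eq_mul, coef]

open Classical in
theorem coef_mul_simple (w : W) (x s : B) (i : B) :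
    coef cs (w * cs.simple s) x i = coef cs w x i +
      (if i = s then ∑ l, coef cs w x l * kM M s l else 0) := by
  rw [coef, game_mul_apply, game_simple, act_apply', map_add, Pi.add_apply, map_smul,
    Pi.smul_apply, smul_eq_mul, coef]
  congr 1
  by_cases h : i = s
  · subst h
    rw [Pi.single_eq_same, one_mul, if_pos rfl, game_eq_sum]
    apply Finset.sum_congr rfl
    intro l _
    rw [mul_comm]
  · rw [if_neg h, Pi.single_eq_of_ne (Ne.symm h), zero_mul]

/-- The roots have constant norm. -/
theorem quad (w : W) (x : B) :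
    ∑ i, ∑ j, coef cs w x i * coef cs w x j * kM M i j = -2 := by
  classical
  induction w using cs.simple_induction_right with
  | one =>
    have h : ∀ i, coef cs (1 : W) x i = if i = x then 1 else 0 := by
      intro i
      rw [coef, map_one]
      show (Pi.single i 1 : B → ℝ) x = _
      rw [Pi.single_apply]
      by_cases h : x = i
      · rw [if_pos h, if_pos h.symm]
      · rw [if_neg h, if_neg (Ne.symm h)]
    simp only [h, ite_mul, one_mul, zero_mul, Finset.sum_ite_irrel, Finset.sum_const_zero,
      Finset.sum_ite_eq', Finset.mem_univ, if_true]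
    exact kM_diag x
  | mul_simple_right w s ih =>
    set T : ℝ := ∑ l, coef cs w x l * kM M s l with hT
    have hT' : ∑ l, coef cs w x l * kM M l s = T := by
      rw [hT]
      apply Finset.sum_congr rfl
      intro l _
      rw [kM_symm]
    have h1 : ∀ i j, coef cs (w * cs.simple s) x i * coef cs (w * cs.simple s) x j * kM M i j =
        coef cs w x i * coef cs w x j * kM M i j +
        (if i = s then T * (coef cs w x j * kM M s j) else 0) +
        (if j = s then T * (coef cs w x i * kM M i s) else 0) +
        (if i = s then (if j = s then T * T * kM M s s else 0) else 0) := by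
      intro i j
      rw [coef_mul_simple, coef_mul_simple]
      by_cases hi : i = s <;> by_cases hj : j = s <;> simp only [hi, hj, if_true, if_false] <;> ring
    simp only [h1, Finset.sum_add_distrib]
    rw [ih]
    simp only [Finset.sum_ite_eq', Finset.mem_univ, if_true, ← Finset.mul_sum,
      Finset.sum_ite_irrel, Finset.sum_const_zero]
    rw [hT', ← hT, kM_diag]
    ring

/-- The fixer of a coordinate functional. -/
noncomputable def DD (x : B) : Subgroup W where
  carrier := {w | ∀ p : B → ℝ, game cs w p x = p x}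
  one_mem' := fun p => by rw [map_one]; rfl
  mul_mem' := fun {a b} ha hb p => by rw [game_mul_apply, ha, hb]
  inv_mem' := fun {a} ha p => by
    have h := ha (game cs a⁻¹ p)
    rw [← game_mul_apply, mul_inv_cancel, map_one] at h
    exact h.symm

variable {cs}

theorem sq_of_prop {w : W} {x y : B} {b : ℝ} (h : ∀ p : B → ℝ, game cs w p x = b * p y) :
    b = 1 ∨ b = -1 := by
  classical
  have h1 : ∀ i, coef cs w x i = if i = y then b else 0 := by
    intro i
    rw [coef, h, Pi.single_apply]
    by_cases hi : y = i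
    · rw [if_pos hi, if_pos hi.symm, mul_one]
    · rw [if_neg hi, if_neg (Ne.symm hi), mul_zero]
  have h2 := quad cs w x
  simp only [h1, ite_mul, zero_mul, Finset.sum_ite_eq', Finset.mem_univ, if_true, mul_ite,
    mul_zero] at h2
  rw [kM_diag] at h2
  have h3 : (b - 1) * (b + 1) = 0 := by linarith
  rcases mul_eq_zero.1 h3 with h4 | h4
  · left; linarith
  · right; linarith

/-- An element commuting with a simple reflection fixes its coordinate up to sign. -/
theorem sign_of_comm {z : W} {x : B} (h : cs.simple x * z = z * cs.simple x) :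
    (∀ p : B → ℝ, game cs z p x = p x) ∨ (∀ p : B → ℝ, game cs z p x = - p x) := by
  by_cases ha : Asc cs z x
  · obtain ⟨b, hb, h1⟩ := prop_of_eq cs ha h
    rcases sq_of_prop h1 with h2 | h2
    · left; intro p; rw [h1, h2, one_mul]
    · linarith
  · have ha' := asc_simple_mul cs ha
    have h' : cs.simple x * (cs.simple x * z) = (cs.simple x * z) * cs.simple x := by
      rw [mul_assoc, h]
    obtain ⟨b, hb, h1⟩ := prop_of_eq cs ha' h'
    rcases sq_of_prop h1 with h2 | h2
    · right
      intro p
      have h3 := h1 p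
      rw [game_mul_apply, game_simple_self, h2, one_mul] at h3
      linarith
    · linarith

/-- Propagation of finite index. -/
theorem DD_adj {x y : B} (hxy : kM M x y ≠ 0) (hx : (DD cs x).FiniteIndex) :
    (DD cs y).FiniteIndex := by
  have h1 : ((DD cs x).comap (MulAut.conj (cs.simple y)).toMonoidHom).FiniteIndex :=
    fi_comap _ _
  have h2 : (DD cs x ⊓ (DD cs x).comap (MulAut.conj (cs.simple y)).toMonoidHom).FiniteIndex :=
    inferInstance
  apply Subgroup.finiteIndex_of_le (H := DD cs x ⊓
    (DD cs x).comap (MulAut.conj (cs.simple y)).toMonoidHom)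
  rintro w ⟨hw1, hw2⟩
  have hw1' : ∀ p : B → ℝ, game cs w p x = p x := hw1
  have hw2' : ∀ p : B → ℝ, game cs (cs.simple y * w * (cs.simple y)⁻¹) p x = p x := hw2
  intro p
  have h3 := hw2' (game cs (cs.simple y) p)
  rw [cs.inv_simple, game_mul_apply, ← game_mul_apply cs (cs.simple y) (cs.simple y),
    cs.simple_mul_simple_self, map_one, game_mul_apply, game_simple, act_apply, act_apply] at h3
  have h4 : game cs w ((1 : Module.End ℝ (B → ℝ)) p) = game cs w p := rfl
  rw [h4, hw1'] at h3
  have h5 : kM M y x ≠ 0 := by rw [kM_symm]; exact hxy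
  have h6 : (game cs w p y - p y) * kM M y x = 0 := by linarith
  have h7 := (mul_eq_zero.1 h6).resolve_right h5
  linarith

/-- Finite orbits of roots give finite index. -/
theorem DD_of_finite {x : B}
    (h : (Set.range fun w : W => fun p : B → ℝ => game cs w p x).Finite) :
    (DD cs x).FiniteIndex := by
  have hfin := h.to_subtype
  have hq : Finite (W ⧸ DD cs x) := by
    have hinj : ∀ a b : W, (fun p : B → ℝ => game cs a⁻¹ p x) = (fun p => game cs b⁻¹ p x) →
        (a : W ⧸ DD cs x) = b := by
      intro a b hab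
      rw [QuotientGroup.eq]
      intro p
      have h1 : game cs a⁻¹ (game cs b p) x = game cs b⁻¹ (game cs b p) x :=
        congrFun hab (game cs b p)
      rw [← game_mul_apply, ← game_mul_apply, inv_mul_cancel, map_one] at h1
      exact h1
    let f : (W ⧸ DD cs x) → (Set.range fun w : W => fun p : B → ℝ => game cs w p x) :=
      fun q => ⟨fun p => game cs (q.out)⁻¹ p x, ⟨(q.out)⁻¹, rfl⟩⟩
    apply Finite.of_injective f
    intro q q' hqq
    have h1 : (fun p : B → ℝ => game cs (q.out)⁻¹ p x) = (fun p => game cs (q'.out)⁻¹ p x) :=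
      congrArg Subtype.val hqq
    have h2 := hinj _ _ h1
    rwa [QuotientGroup.out_eq', QuotientGroup.out_eq'] at h2
  exact Subgroup.finiteIndex_of_finite_quotient

/-- Finite conjugacy classes give finite index. -/
theorem DD_of_class {x : B} (h : (Set.range fun w : W => w⁻¹ * cs.simple x * w).Finite) :
    (DD cs x).FiniteIndex := by
  classical
  apply DD_of_finite
  have hex : ∀ r ∈ (Set.range fun w : W => w⁻¹ * cs.simple x * w), ∃ w : W,
      w⁻¹ * cs.simple x * w = r := by
    rintro r ⟨w, hw⟩
    exact ⟨w, hw⟩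
  choose! g hg using hex
  apply ((h.image fun r => fun p : B → ℝ => game cs (g r) p x).union
    (h.image fun r => fun p : B → ℝ => - game cs (g r) p x)).subset
  rintro _ ⟨w, rfl⟩
  have hr : w⁻¹ * cs.simple x * w ∈ (Set.range fun w : W => w⁻¹ * cs.simple x * w) := ⟨w, rfl⟩
  have h1 := hg _ hr
  set v := g (w⁻¹ * cs.simple x * w) with hv
  have h2 : cs.simple x * (w * v⁻¹) = (w * v⁻¹) * cs.simple x := by
    have h3 : cs.simple x = w * (v⁻¹ * cs.simple x * v) * w⁻¹ := by rw [h1]; group
    calc cs.simple x * (w * v⁻¹) = (w * (v⁻¹ * cs.simple x * v) * w⁻¹) * (w * v⁻¹) := by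
          rw [← h3]
      _ = (w * v⁻¹) * cs.simple x := by group
  rcases sign_of_comm h2 with h3 | h3
  · left
    refine ⟨_, hr, ?_⟩
    funext p
    have h4 := h3 (game cs v p)
    rw [← game_mul_apply, inv_mul_cancel_right] at h4
    exact h4.symm
  · right
    refine ⟨_, hr, ?_⟩
    funext p
    have h4 := h3 (game cs v p)
    rw [← game_mul_apply, inv_mul_cancel_right] at h4
    exact h4.symm

end root

end Pool.Agent.ArtSph
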